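import Mathlib

set_option autoImplicit false

/-!
# Union-closed families in which the union of two incomparable members generates an up-set
-/

namespace Pool.Agent.R102.TwoDense

open Finset

variable {V : Type*} [Fintype V] [DecidableEq V]

/-- the boundary pairs of `H` above `M` -/
def bd (H : Finset (Finset V)) (M : Finset V) : Finset (Finset V × V) :=
  univ.filter (fun p => M ⊆ p.1 ∧ p.1 ∉ H ∧ p.2 ∉ p.1 ∧ insert p.2 p.1 ∈ H)

lemma mem_bd {H : Finset (Finset V)} {M : Finset V} {p : Finset V × V} :
    p ∈ bd H M ↔ M ⊆ p.1 ∧ p.1 ∉ H ∧ p.2 ∉ p.1 ∧ insert p.2 p.1 ∈ H := by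
  simp [bd]

/-- The sum of `2 |A| - n` over an up-set is the number of the boundary pairs. -/
lemma sum_upset {H : Finset (Finset V)} (hup : ∀ A ∈ H, ∀ B, A ⊆ B → B ∈ H) :
    ∑ A ∈ H, (2 * (A.card : ℤ) - Fintype.card V) = (bd H ∅).card := by
  -- pairs
  set P1 : Finset (Finset V × V) := (H ×ˢ univ).filter (fun p => p.2 ∈ p.1) with hP1
  set P0 : Finset (Finset V × V) := (H ×ˢ univ).filter (fun p => p.2 ∉ p.1) with hP0
  have h1 : (P1.card : ℤ) = ∑ A ∈ H, (A.card : ℤ) := by
    rw [hP1, Finset.card_filter, Finset.sum_product]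
    push_cast
    refine Finset.sum_congr rfl fun A _ => ?_
    simp
  have h0 : (P0.card : ℤ) = ∑ A ∈ H, ((Fintype.card V : ℤ) - A.card) := by
    rw [hP0, Finset.card_filter, Finset.sum_product]
    push_cast
    refine Finset.sum_congr rfl fun A _ => ?_
    have : (∑ x : V, if x ∉ A then (1 : ℤ) else 0) = ((univ.filter (fun x => x ∉ A)).card : ℤ) := by
      rw [Finset.card_filter]; push_cast; rfl
    rw [this]
    have h2 : univ.filter (fun x => x ∉ A) = Aᶜ := by ext x; simp
    rw [h2, Finset.card_compl]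
    rw [Nat.cast_sub (Finset.card_le_univ A)]
  -- split P1
  have hsplit : P1.card = P0.card + (bd H ∅).card := by
    have hA : (P1.filter (fun p => p.1.erase p.2 ∈ H)).card = P0.card := by
      refine Finset.card_nbij' (fun p => (p.1.erase p.2, p.2)) (fun p => (insert p.2 p.1, p.2))
        ?_ ?_ ?_ ?_
      · intro p hp
        simp only [hP1, hP0, coe_filter, mem_filter, mem_product, mem_univ, and_true,
          Set.mem_ofPred_eq] at hp ⊢
        exact ⟨hp.2, notMem_erase _ _⟩
      · intro p hp
        simp only [hP1, hP0, coe_filter, mem_filter, mem_product, mem_univ, and_true,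
          Set.mem_ofPred_eq] at hp ⊢
        refine ⟨⟨hup _ hp.1 _ (subset_insert _ _), mem_insert_self _ _⟩, ?_⟩
        rw [erase_insert hp.2]
        exact hp.1
      · intro p hp
        simp only [hP1, coe_filter, mem_filter, mem_product, mem_univ, and_true,
          Set.mem_ofPred_eq] at hp
        simp [insert_erase hp.1.2]
      · intro p hp
        simp only [hP0, coe_filter, mem_product, mem_univ, and_true,
          Set.mem_ofPred_eq] at hp
        simp [erase_insert hp.2]
    have hB : (P1.filter (fun p => ¬ p.1.erase p.2 ∈ H)).card = (bd H ∅).card := by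
      refine Finset.card_nbij' (fun p => (p.1.erase p.2, p.2)) (fun p => (insert p.2 p.1, p.2))
        ?_ ?_ ?_ ?_
      · intro p hp
        simp only [hP1, coe_filter, mem_filter, mem_product, mem_univ, and_true,
          Set.mem_ofPred_eq] at hp
        rw [mem_coe, mem_bd]
        exact ⟨empty_subset _, hp.2, notMem_erase _ _, by simpa [insert_erase hp.1.2] using hp.1.1⟩
      · intro p hp
        rw [mem_coe, mem_bd] at hp
        simp only [hP1, coe_filter, mem_filter, mem_product, mem_univ, and_true,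
          Set.mem_ofPred_eq]
        refine ⟨⟨hp.2.2.2, mem_insert_self _ _⟩, ?_⟩
        rw [erase_insert hp.2.2.1]
        exact hp.2.1
      · intro p hp
        simp only [hP1, coe_filter, mem_filter, mem_product, mem_univ, and_true,
          Set.mem_ofPred_eq] at hp
        simp [insert_erase hp.1.2]
      · intro p hp
        rw [mem_coe, mem_bd] at hp
        simp [erase_insert hp.2.2.1]
    rw [← hA, ← hB]
    exact (Finset.card_filter_add_card_filter_not _).symm
  have h2 : ∑ A ∈ H, (2 * (A.card : ℤ) - Fintype.card V) =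
      ∑ A ∈ H, (A.card : ℤ) - ∑ A ∈ H, ((Fintype.card V : ℤ) - A.card) := by
    rw [← Finset.sum_sub_distrib]
    exact Finset.sum_congr rfl fun A _ => by ring
  rw [h2, ← h1, ← h0, hsplit]
  push_cast
  ring

/-- Above a set `M` outside an up-set there are at least `n - |M|` boundary pairs. -/
lemma bd_ge {H : Finset (Finset V)} (hup : ∀ A ∈ H, ∀ B, A ⊆ B → B ∈ H)
    (huniv : (univ : Finset V) ∈ H) {M : Finset V} (hM : M ∉ H) :
    Fintype.card V - M.card ≤ (bd H M).card := by
  -- a maximal nonmember above `M`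
  obtain ⟨B, hB, hBmax⟩ := (univ.filter (fun B : Finset V => M ⊆ B ∧ B ∉ H)).exists_max_image
    Finset.card ⟨M, by simp [hM]⟩
  simp only [mem_filter, mem_univ, true_and] at hB hBmax
  have hmax : ∀ x, x ∉ B → insert x B ∈ H := by
    intro x hx
    by_contra h
    have := hBmax (insert x B) ⟨hB.1.trans (subset_insert _ _), h⟩
    rw [card_insert_of_notMem hx] at this
    omega
  have hBne : B ≠ univ := fun h => hB.2 (h ▸ huniv)
  obtain ⟨x0, hx0⟩ : ∃ x, x ∉ B := by
    by_contra h
    push Not at h
    exact hBne (eq_univ_iff_forall.2 h)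
  have hcard : Fintype.card V - M.card = (Mᶜ).card := (Finset.card_compl M).symm
  rw [hcard]
  have hsub : ∀ C : Finset V, C ⊆ B → C ∉ H := fun C hC h => hB.2 (hup C h B hC)
  let φ : V → Finset V × V := fun y =>
    if y ∈ B then (if insert x0 (B.erase y) ∈ H then (B.erase y, x0)
      else (insert x0 (B.erase y), y)) else (B, y)
  apply Finset.card_le_card_of_injOn φ
  · intro y hy
    rw [mem_coe, mem_compl] at hy
    rw [mem_coe, mem_bd]
    by_cases hyB : y ∈ B
    · by_cases h : insert x0 (B.erase y) ∈ H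
      · simp only [φ, hyB, h, if_true]
        refine ⟨?_, hsub _ (erase_subset _ _), fun h' => hx0 (mem_of_mem_erase h'), trivial⟩
        intro m hm
        exact mem_erase.2 ⟨fun h' => hy (h' ▸ hm), hB.1 hm⟩
      · simp only [φ, hyB, h, if_true, if_false]
        have hyx : y ≠ x0 := fun h' => hx0 (h' ▸ hyB)
        refine ⟨?_, not_false, ?_, ?_⟩
        · intro m hm
          exact mem_insert_of_mem (mem_erase.2 ⟨fun h' => hy (h' ▸ hm), hB.1 hm⟩)
        · rw [mem_insert]
          rintro (h' | h')
          · exact hyx h'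
          · exact (notMem_erase _ _) h'
        · rw [Finset.insert_comm, insert_erase hyB]
          exact hmax x0 hx0
    · simp only [φ, hyB, if_false]
      exact ⟨hB.1, hB.2, not_false, hmax y hyB⟩
  · intro y hy z hz hyz
    by_cases hyB : y ∈ B <;> by_cases hzB : z ∈ B
    · have hyx : y ≠ x0 := fun h' => hx0 (h' ▸ hyB)
      have hzx : z ≠ x0 := fun h' => hx0 (h' ▸ hzB)
      by_cases h : insert x0 (B.erase y) ∈ H <;> by_cases h' : insert x0 (B.erase z) ∈ H
      · simp only [φ, hyB, hzB, h, h', if_true, Prod.mk.injEq, and_true] at hyz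
        by_contra hne
        have : z ∈ B.erase y := mem_erase.2 ⟨fun e => hne e.symm, hzB⟩
        rw [hyz] at this
        exact notMem_erase _ _ this
      · simp only [φ, hyB, hzB, h, h', if_true, if_false, Prod.mk.injEq] at hyz
        exact absurd hyz.2.symm hzx
      · simp only [φ, hyB, hzB, h, h', if_true, if_false, Prod.mk.injEq] at hyz
        exact absurd hyz.2 hyx
      · simp only [φ, hyB, hzB, h, h', if_true, if_false, Prod.mk.injEq] at hyz
        exact hyz.2
    · exfalso
      by_cases h : insert x0 (B.erase y) ∈ H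
      · simp only [φ, hyB, hzB, h, if_true, if_false, Prod.mk.injEq] at hyz
        have := hyz.1 ▸ hyB
        exact notMem_erase y B (hyz.1.symm ▸ hyB)
      · simp only [φ, hyB, hzB, h, if_true, if_false, Prod.mk.injEq] at hyz
        exact hx0 (hyz.1 ▸ mem_insert_self x0 _)
    · exfalso
      by_cases h : insert x0 (B.erase z) ∈ H
      · simp only [φ, hyB, hzB, h, if_true, if_false, Prod.mk.injEq] at hyz
        exact notMem_erase z B (hyz.1 ▸ hzB)
      · simp only [φ, hyB, hzB, h, if_true, if_false, Prod.mk.injEq] at hyz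
        exact hx0 (hyz.1.symm ▸ mem_insert_self x0 _)
    · simp only [φ, hyB, hzB, if_false, Prod.mk.injEq] at hyz
      exact hyz.2

/-- **Main inequality.** Let `F` contain the whole set and suppose that for any two members `A`, `X`
with `X` not contained in `A` every superset of `A ∪ X` is a member. Then
`∑ (2 |A| - n) ≥ 0` over `A ∈ F`. -/
theorem average (F : Finset (Finset V)) (huniv : (univ : Finset V) ∈ F)
    (hP : ∀ A ∈ F, ∀ X ∈ F, ¬ X ⊆ A → ∀ C, A ∪ X ⊆ C → C ∈ F) :
    Fintype.card V * F.card ≤ 2 * ∑ A ∈ F, A.card := by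
  classical
  set H : Finset (Finset V) := univ.filter (fun A => ∀ C, A ⊆ C → C ∈ F) with hH
  have memH : ∀ A, A ∈ H ↔ ∀ C, A ⊆ C → C ∈ F := by intro A; simp [hH]
  have hHF : H ⊆ F := fun A hA => (memH A).1 hA A Subset.rfl
  have hup : ∀ A ∈ H, ∀ B, A ⊆ B → B ∈ H := fun A hA B hAB =>
    (memH B).2 fun C hC => (memH A).1 hA C (hAB.trans hC)
  have hunivH : (univ : Finset V) ∈ H := (memH _).2 fun C hC => by
    rwa [univ_subset_iff.1 hC]
  have hunion : ∀ A ∈ F \ H, ∀ X ∈ F \ H, A ≠ X → A ∪ X ∈ H := by
    intro A hA X hX hne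
    rw [mem_sdiff] at hA hX
    rw [memH]
    intro C hC
    by_cases h : X ⊆ A
    · refine hP X hX.1 A hA.1 (fun h' => hne (h'.antisymm h)) C ?_
      rwa [union_comm]
    · exact hP A hA.1 X hX.1 h C hC
  -- the boundary pairs
  have hdisj : ((F \ H : Finset (Finset V)) : Set (Finset V)).PairwiseDisjoint (bd H) := by
    intro A hA X hX hne
    rw [Function.onFun, Finset.disjoint_left]
    intro p hp hp'
    rw [mem_bd] at hp hp'
    exact hp.2.1 (hup _ (hunion A hA X hX hne) _ (union_subset hp.1 hp'.1))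
  have hsub : (F \ H).biUnion (bd H) ⊆ bd H ∅ := by
    intro p hp
    rw [mem_biUnion] at hp
    obtain ⟨A, _, hp⟩ := hp
    rw [mem_bd] at hp ⊢
    exact ⟨empty_subset _, hp.2⟩
  have hcount : ∑ A ∈ F \ H, ((Fintype.card V : ℤ) - A.card) ≤ ((bd H ∅).card : ℤ) := by
    calc ∑ A ∈ F \ H, ((Fintype.card V : ℤ) - A.card)
        ≤ ∑ A ∈ F \ H, ((bd H A).card : ℤ) := by
          refine Finset.sum_le_sum fun A hA => ?_
          have h := bd_ge hup hunivH (mem_sdiff.1 hA).2
          have h2 := Finset.card_le_univ A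
          omega
      _ = (((F \ H).biUnion (bd H)).card : ℤ) := by
          rw [Finset.card_biUnion hdisj]; push_cast; rfl
      _ ≤ ((bd H ∅).card : ℤ) := by exact_mod_cast Finset.card_le_card hsub
  have hsum := sum_upset hup
  have hF : ∑ A ∈ F, (2 * (A.card : ℤ) - Fintype.card V) =
      ∑ A ∈ F \ H, (2 * (A.card : ℤ) - Fintype.card V) +
      ∑ A ∈ H, (2 * (A.card : ℤ) - Fintype.card V) := (Finset.sum_sdiff hHF).symm
  have h3 : 0 ≤ ∑ A ∈ F, (2 * (A.card : ℤ) - Fintype.card V) := by
    rw [hF, hsum]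
    have h4 : ∑ A ∈ F \ H, (2 * (A.card : ℤ) - Fintype.card V) +
        ∑ A ∈ F \ H, ((Fintype.card V : ℤ) - A.card) = ∑ A ∈ F \ H, (A.card : ℤ) := by
      rw [← Finset.sum_add_distrib]
      exact Finset.sum_congr rfl fun A _ => by ring
    have h5 : 0 ≤ ∑ A ∈ F \ H, (A.card : ℤ) := Finset.sum_nonneg fun A _ => by positivity
    linarith
  rw [Finset.sum_sub_distrib, ← Finset.mul_sum, Finset.sum_const, nsmul_eq_mul] at h3
  have h6 : ((Fintype.card V * F.card : ℕ) : ℤ) ≤ ((2 * ∑ A ∈ F, A.card : ℕ) : ℤ) := by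
    push_cast
    linarith
  exact_mod_cast h6

/-- an element in at least half of the members -/
theorem exists_half [Nonempty V] (F : Finset (Finset V))
    (h : Fintype.card V * F.card ≤ 2 * ∑ A ∈ F, A.card) :
    ∃ x : V, F.card ≤ 2 * (F.filter (fun A => x ∈ A)).card := by
  by_contra hcon
  push Not at hcon
  have h1 : ∑ A ∈ F, A.card = ∑ x : V, (F.filter (fun A => x ∈ A)).card := by
    have h2 : ∀ A ∈ F, A.card = ∑ x : V, if x ∈ A then 1 else 0 := by
      intro A _
      simp
    rw [Finset.sum_congr rfl h2, Finset.sum_comm]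
    refine Finset.sum_congr rfl fun x _ => ?_
    rw [Finset.card_filter]
  have h3 : ∑ x : V, 2 * (F.filter (fun A => x ∈ A)).card < ∑ _x : V, F.card :=
    Finset.sum_lt_sum_of_nonempty univ_nonempty fun x _ => hcon x
  rw [← Finset.mul_sum, ← h1, Finset.sum_const, Finset.card_univ, smul_eq_mul] at h3
  omega

end Pool.Agent.R102.TwoDense
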