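import Mathlib
import Pool.Agent.R102.TwoDense

set_option autoImplicit false

/-!
# Families in which every nonmember contains few members
-/

namespace Pool.Agent.R102.FewBelow

open Finset Pool.Agent.R102.TwoDense

variable {V : Type*} [Fintype V] [DecidableEq V]

theorem sum_freq (F : Finset (Finset V)) :
    ∑ A ∈ F, (2 * (A.card : ℤ) - Fintype.card V) =
      ∑ x : V, (2 * ((F.filter (fun A => x ∈ A)).card : ℤ) - F.card) := by
  have h1 : ∑ A ∈ F, (A.card : ℤ) = ∑ x : V, ((F.filter (fun A => x ∈ A)).card : ℤ) := by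
    have h2 : ∀ A ∈ F, (A.card : ℤ) = ∑ x : V, if x ∈ A then 1 else 0 := by
      intro A _
      simp
    rw [Finset.sum_congr rfl h2, Finset.sum_comm]
    refine Finset.sum_congr rfl fun x _ => ?_
    rw [Finset.card_filter]
    push_cast
    rfl
  rw [sum_sub_distrib, sum_sub_distrib, ← mul_sum, ← mul_sum, h1, sum_const, sum_const,
    card_univ]
  simp only [nsmul_eq_mul]
  ring

/-- the sum over a family without the empty set -/
theorem pos_sum (F : Finset (Finset V)) (huniv : (univ : Finset V) ∈ F) (hne : F ≠ univ)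
    (k : ℕ) (hk : 1 ≤ k)
    (hbelow : ∀ B, B ∉ F → (F.filter (fun A => A.Nonempty ∧ A ⊆ B)).card ≤ k)
    (hsize : ∀ A ∈ F, A.Nonempty → (∃ B, B ∉ F ∧ A ⊆ B) →
      (k - 1) * Fintype.card V < (2 * k - 1) * A.card) :
    0 < ∑ A ∈ F.erase ∅, (2 * (A.card : ℤ) - Fintype.card V) := by
  classical
  set H : Finset (Finset V) := univ.filter (fun A => ∀ C, A ⊆ C → C ∈ F) with hH
  have memH : ∀ A, A ∈ H ↔ ∀ C, A ⊆ C → C ∈ F := by intro A; simp [hH]
  have hHF : H ⊆ F := fun A hA => (memH A).1 hA A Subset.rfl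
  have hup : ∀ A ∈ H, ∀ B, A ⊆ B → B ∈ H := fun A hA B hAB =>
    (memH B).2 fun C hC => (memH A).1 hA C (hAB.trans hC)
  have hunivH : (univ : Finset V) ∈ H := (memH _).2 fun C hC => by
    rwa [univ_subset_iff.1 hC]
  have hempty : (∅ : Finset V) ∉ H := by
    intro h
    apply hne
    exact eq_univ_iff_forall.2 fun C => (memH ∅).1 h C (empty_subset _)
  set M : Finset (Finset V) := F.erase ∅ \ H with hM
  have hHF' : H ⊆ F.erase ∅ := fun A hA =>
    mem_erase.2 ⟨fun h => hempty (h ▸ hA), hHF hA⟩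
  have hMF : ∀ A ∈ M, A ∈ F ∧ A.Nonempty ∧ A ∉ H := by
    intro A hA
    rw [hM, mem_sdiff, mem_erase] at hA
    exact ⟨hA.1.2, nonempty_iff_ne_empty.2 hA.1.1, hA.2⟩
  have hbd : ∑ A ∈ M, ((Fintype.card V : ℤ) - A.card) ≤ k * ((bd H ∅).card : ℤ) := by
    calc ∑ A ∈ M, ((Fintype.card V : ℤ) - A.card)
        ≤ ∑ A ∈ M, ((bd H A).card : ℤ) := by
          refine Finset.sum_le_sum fun A hA => ?_
          have h := bd_ge hup hunivH (hMF A hA).2.2
          have h2 := Finset.card_le_univ A
          omega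
      _ = ∑ A ∈ M, ∑ p ∈ bd H ∅, (if A ⊆ p.1 then (1 : ℤ) else 0) := by
          refine Finset.sum_congr rfl fun A _ => ?_
          rw [← Finset.sum_filter, Finset.sum_const, nsmul_eq_mul, mul_one]
          congr 2
          refine Finset.ext fun p => ⟨fun h => ?_, fun h => ?_⟩
          · have h := mem_bd.1 h
            exact mem_filter.2 ⟨mem_bd.2 ⟨empty_subset _, h.2⟩, h.1⟩
          · have h := mem_filter.1 h
            exact mem_bd.2 ⟨h.2, (mem_bd.1 h.1).2⟩
      _ = ∑ p ∈ bd H ∅, ∑ A ∈ M, (if A ⊆ p.1 then (1 : ℤ) else 0) := Finset.sum_comm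
      _ ≤ ∑ p ∈ bd H ∅, (k : ℤ) := by
          refine Finset.sum_le_sum fun p hp => ?_
          rw [mem_bd] at hp
          rw [← Finset.sum_filter, Finset.sum_const, nsmul_eq_mul, mul_one]
          have hp2 := hp.2.1
          rw [memH] at hp2
          push Not at hp2
          obtain ⟨C, hC1, hC2⟩ := hp2
          have h3 : (M.filter (fun A => A ⊆ p.1)).card ≤ k := by
            refine le_trans (Finset.card_le_card ?_) (hbelow C hC2)
            intro A hA
            rw [mem_filter] at hA ⊢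
            obtain ⟨h4, h5, _⟩ := hMF A hA.1
            exact ⟨h4, h5, hA.2.trans hC1⟩
          exact_mod_cast h3
      _ = k * ((bd H ∅).card : ℤ) := by
          rw [Finset.sum_const, nsmul_eq_mul]
          ring
  have hsum := sum_upset hup
  have hF : ∑ A ∈ F.erase ∅, (2 * (A.card : ℤ) - Fintype.card V) =
      ∑ A ∈ M, (2 * (A.card : ℤ) - Fintype.card V) +
      ∑ A ∈ H, (2 * (A.card : ℤ) - Fintype.card V) := (Finset.sum_sdiff hHF').symm
  rw [hF, hsum]
  have hkpos : (0 : ℤ) < k := by exact_mod_cast hk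
  rcases M.eq_empty_or_nonempty with hMe | hMne
  · rw [hMe, sum_empty, zero_add]
    have h1 := bd_ge hup hunivH hempty
    have hV : 0 < Fintype.card V := by
      by_contra h0
      have h0' : Fintype.card V = 0 := by omega
      have : IsEmpty V := Fintype.card_eq_zero_iff.1 h0'
      apply hempty
      have : (∅ : Finset V) = univ := by ext x; exact (IsEmpty.false x).elim
      rw [this]
      exact hunivH
    rw [card_empty] at h1
    omega
  · have h1 : 0 < ∑ A ∈ M, ((2 * (k : ℤ) - 1) * A.card - (k - 1) * Fintype.card V) := by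
      refine Finset.sum_pos (fun A hA => ?_) hMne
      obtain ⟨h4, h5, h6⟩ := hMF A hA
      rw [memH] at h6
      push Not at h6
      obtain ⟨C, hC1, hC2⟩ := h6
      have h7 := hsize A h4 h5 ⟨C, hC2, hC1⟩
      have h8 : (((k - 1) * Fintype.card V : ℕ) : ℤ) < (((2 * k - 1) * A.card : ℕ) : ℤ) := by
        exact_mod_cast h7
      rw [Nat.cast_mul, Nat.cast_mul, Nat.cast_sub hk, Nat.cast_sub (by omega)] at h8
      push_cast at h8
      linarith
    have h2 : ∑ A ∈ M, ((2 * (k : ℤ) - 1) * A.card - (k - 1) * Fintype.card V) =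
        k * ∑ A ∈ M, (2 * (A.card : ℤ) - Fintype.card V) +
          ∑ A ∈ M, ((Fintype.card V : ℤ) - A.card) := by
      rw [mul_sum, ← sum_add_distrib]
      exact Finset.sum_congr rfl fun A _ => by ring
    have h3 : 0 < (k : ℤ) * (∑ A ∈ M, (2 * (A.card : ℤ) - Fintype.card V) +
        ((bd H ∅).card : ℤ)) := by
      rw [mul_add]
      linarith
    exact (mul_pos_iff_of_pos_left hkpos).1 h3

end Pool.Agent.R102.FewBelow
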