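import Mathlib
import Pool.Agent.R102.TwoDense
import Pool.Agent.R102.FewBelow

set_option autoImplicit false

/-!
# Union-closed families in which no nonmember contains a chain of three nonempty members
-/

namespace Pool.Agent.R102.ChainTwo

open Finset Pool.Agent.R102.TwoDense

variable {V : Type*} [Fintype V] [DecidableEq V]

/-- Inside the interval `[M, W]`, with `M ∉ H`, `W ∈ H`, there are at least `|W \ M|` boundary
pairs. -/
lemma bd_ge_in {H : Finset (Finset V)} (hup : ∀ A ∈ H, ∀ B, A ⊆ B → B ∈ H)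
    {M W : Finset V} (hMW : M ⊆ W) (hW : W ∈ H) (hM : M ∉ H) :
    (W \ M).card ≤ ((bd H M).filter (fun p => insert p.2 p.1 ⊆ W)).card := by
  obtain ⟨B, hB, hBmax⟩ :=
    (univ.filter (fun B : Finset V => M ⊆ B ∧ B ⊆ W ∧ B ∉ H)).exists_max_image
      Finset.card ⟨M, by simp [hM, hMW]⟩
  simp only [mem_filter, mem_univ, true_and] at hB hBmax
  obtain ⟨hMB, hBW, hBH⟩ := hB
  have hmax : ∀ x ∈ W, x ∉ B → insert x B ∈ H := by
    intro x hxW hx
    by_contra h
    have := hBmax (insert x B) ⟨hMB.trans (subset_insert _ _), insert_subset hxW hBW, h⟩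
    rw [card_insert_of_notMem hx] at this
    omega
  obtain ⟨x0, hx0W, hx0⟩ : ∃ x ∈ W, x ∉ B := by
    by_contra h
    push Not at h
    exact hBH (hup W hW B h)
  have hsub : ∀ C : Finset V, C ⊆ B → C ∉ H := fun C hC h => hBH (hup C h B hC)
  let φ : V → Finset V × V := fun y =>
    if y ∈ B then (if insert x0 (B.erase y) ∈ H then (B.erase y, x0)
      else (insert x0 (B.erase y), y)) else (B, y)
  apply Finset.card_le_card_of_injOn φ
  · intro y hy
    rw [mem_coe, mem_sdiff] at hy
    rw [mem_coe, mem_filter, mem_bd]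
    by_cases hyB : y ∈ B
    · have herase : B.erase y ⊆ W := (erase_subset _ _).trans hBW
      by_cases h : insert x0 (B.erase y) ∈ H
      · simp only [φ, hyB, h, if_true]
        refine ⟨⟨?_, hsub _ (erase_subset _ _), fun h' => hx0 (mem_of_mem_erase h'), trivial⟩,
          insert_subset hx0W herase⟩
        intro m hm
        exact mem_erase.2 ⟨fun h' => hy.2 (h' ▸ hm), hMB hm⟩
      · simp only [φ, hyB, h, if_true, if_false]
        have hyx : y ≠ x0 := fun h' => hx0 (h' ▸ hyB)
        refine ⟨⟨?_, not_false, ?_, ?_⟩, insert_subset hy.1 (insert_subset hx0W herase)⟩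
        · intro m hm
          exact mem_insert_of_mem (mem_erase.2 ⟨fun h' => hy.2 (h' ▸ hm), hMB hm⟩)
        · rw [mem_insert]
          rintro (h' | h')
          · exact hyx h'
          · exact (notMem_erase _ _) h'
        · rw [Finset.insert_comm, insert_erase hyB]
          exact hmax x0 hx0W hx0
    · simp only [φ, hyB, if_false]
      exact ⟨⟨hMB, hBH, not_false, hmax y hy.1 hyB⟩, insert_subset hy.1 hBW⟩
  · intro y hy z hz hyz
    by_cases hyB : y ∈ B <;> by_cases hzB : z ∈ B
    · have hyx : y ≠ x0 := fun h' => hx0 (h' ▸ hyB)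
      have hzx : z ≠ x0 := fun h' => hx0 (h' ▸ hzB)
      by_cases h : insert x0 (B.erase y) ∈ H <;> by_cases h' : insert x0 (B.erase z) ∈ H
      · simp only [φ, hyB, hzB, h, h', if_true, Prod.mk.injEq, and_true] at hyz
        by_contra hne
        have : z ∈ B.erase y := mem_erase.2 ⟨fun e => hne e.symm, hzB⟩
        rw [hyz] at this
        exact notMem_erase z _ this
      · simp only [φ, hyB, hzB, h, h', if_true, if_false, Prod.mk.injEq] at hyz
        exact absurd hyz.2.symm hzx
      · simp only [φ, hyB, hzB, h, h', if_true, if_false, Prod.mk.injEq] at hyz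
        exact absurd hyz.2 hyx
      · simp only [φ, hyB, hzB, h, h', if_true, if_false, Prod.mk.injEq] at hyz
        exact hyz.2
    · exfalso
      by_cases h : insert x0 (B.erase y) ∈ H
      · simp only [φ, hyB, hzB, h, if_true, if_false, Prod.mk.injEq] at hyz
        exact notMem_erase y B (hyz.1.symm ▸ hyB)
      · simp only [φ, hyB, hzB, h, if_true, if_false, Prod.mk.injEq] at hyz
        exact hx0 (hyz.1 ▸ mem_insert_self x0 _)
    · exfalso
      by_cases h : insert x0 (B.erase z) ∈ H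
      · simp only [φ, hyB, hzB, h, if_true, if_false, Prod.mk.injEq] at hyz
        exact notMem_erase z B (hyz.1 ▸ hzB)
      · simp only [φ, hyB, hzB, h, if_true, if_false, Prod.mk.injEq] at hyz
        exact hx0 (hyz.1.symm ▸ mem_insert_self x0 _)
    · simp only [φ, hyB, hzB, if_false, Prod.mk.injEq] at hyz
      exact hyz.2

/-- The members all of whose supersets are members. -/
def full (F : Finset (Finset V)) : Finset (Finset V) := univ.filter (fun A => ∀ C, A ⊆ C → C ∈ F)

lemma mem_full {F : Finset (Finset V)} {A : Finset V} : A ∈ full F ↔ ∀ C, A ⊆ C → C ∈ F := by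
  simp [full]

lemma full_up {F : Finset (Finset V)} : ∀ A ∈ full F, ∀ B, A ⊆ B → B ∈ full F :=
  fun _ hA _ hAB => mem_full.2 fun C hC => (mem_full.1 hA) C (hAB.trans hC)

/-- The minimal nonempty members which are not in `full F`. -/
def roots (F : Finset (Finset V)) : Finset (Finset V) :=
  (F.erase ∅ \ full F).filter (fun A => ∀ B ∈ F, B.Nonempty → B ⊆ A → B = A)

/-- The other nonempty members which are not in `full F`. -/
def blocks (F : Finset (Finset V)) : Finset (Finset V) :=
  (F.erase ∅ \ full F).filter (fun A => ¬ ∀ B ∈ F, B.Nonempty → B ⊆ A → B = A)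

lemma mem_roots {F : Finset (Finset V)} {A : Finset V} : A ∈ roots F ↔
    A ∈ F ∧ A.Nonempty ∧ A ∉ full F ∧ ∀ B ∈ F, B.Nonempty → B ⊆ A → B = A := by
  rw [roots, mem_filter, mem_sdiff, mem_erase, nonempty_iff_ne_empty]
  tauto

lemma mem_blocks {F : Finset (Finset V)} {A : Finset V} : A ∈ blocks F ↔
    A ∈ F ∧ A.Nonempty ∧ A ∉ full F ∧ ∃ B ∈ F, B.Nonempty ∧ B ⊂ A := by
  rw [blocks, mem_filter, mem_sdiff, mem_erase, nonempty_iff_ne_empty]
  constructor
  · rintro ⟨⟨⟨h1, h2⟩, h3⟩, h4⟩
    push Not at h4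
    obtain ⟨B, hB, hne, hBA, hBA'⟩ := h4
    exact ⟨h2, h1, h3, B, hB, hne, (Finset.ssubset_iff_subset_ne).2 ⟨hBA, hBA'⟩⟩
  · rintro ⟨h2, h1, h3, B, hB, hne, hBA⟩
    refine ⟨⟨⟨h1, h2⟩, h3⟩, fun h => ?_⟩
    exact (Finset.ssubset_iff_subset_ne.1 hBA).2 (h B hB hne hBA.1)

/-- The hypotheses. -/
structure Good (F : Finset (Finset V)) : Prop where
  univ_mem : (univ : Finset V) ∈ F
  union : ∀ A ∈ F, ∀ B ∈ F, A ∪ B ∈ F
  chain : ∀ X ∈ F, ∀ Y ∈ F, ∀ Z ∈ F, X.Nonempty → X ⊂ Y → Y ⊂ Z → ∀ C, Z ⊆ C → C ∈ F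

variable {F : Finset (Finset V)}

lemma Good.univ_full (h : Good F) : (univ : Finset V) ∈ full F :=
  mem_full.2 fun C hC => by rw [univ_subset_iff.1 hC]; exact h.univ_mem

lemma Good.above_block (h : Good F) {A X : Finset V} (hA : A ∈ blocks F) (hX : X ∈ F)
    (hAX : A ⊂ X) : X ∈ full F := by
  obtain ⟨hAF, _, _, B, hB, hBne, hBA⟩ := mem_blocks.1 hA
  exact mem_full.2 (h.chain B hB A hAF X hX hBne hBA hAX)

lemma Good.union_block (h : Good F) {A X : Finset V} (hA : A ∈ blocks F) (hX : X ∈ F)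
    (hXA : ¬ X ⊆ A) : A ∪ X ∈ full F := by
  refine h.above_block hA (h.union A (mem_blocks.1 hA).1 X hX) ?_
  refine Finset.ssubset_iff_subset_ne.2 ⟨subset_union_left, fun he => hXA ?_⟩
  rw [he]
  exact subset_union_right

lemma Good.block_antichain (h : Good F) {A B : Finset V} (hA : A ∈ blocks F) (hB : B ∈ blocks F)
    (hAB : A ⊆ B) : A = B := by
  by_contra hne
  exact (mem_blocks.1 hB).2.2.1
    (h.above_block hA (mem_blocks.1 hB).1 (Finset.ssubset_iff_subset_ne.2 ⟨hAB, hne⟩))

lemma root_antichain {A B : Finset V} (hA : A ∈ roots F) (hB : B ∈ roots F)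
    (hAB : A ⊆ B) : A = B :=
  (mem_roots.1 hB).2.2.2 A (mem_roots.1 hA).1 (mem_roots.1 hA).2.1 hAB

lemma Good.union_roots (h : Good F) {A B : Finset V} (hA : A ∈ roots F) (hB : B ∈ roots F)
    (hne : A ≠ B) : A ∪ B ∈ full F ∨ A ∪ B ∈ blocks F := by
  by_cases hf : A ∪ B ∈ full F
  · exact Or.inl hf
  · right
    obtain ⟨hA1, hA2, hA3, hA4⟩ := mem_roots.1 hA
    obtain ⟨hB1, hB2, hB3, hB4⟩ := mem_roots.1 hB
    refine mem_blocks.2 ⟨h.union A hA1 B hB1, hA2.mono subset_union_left, hf, A, hA1, hA2, ?_⟩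
    refine Finset.ssubset_iff_subset_ne.2 ⟨subset_union_left, fun he => hne ?_⟩
    have : B ⊆ A := by rw [he]; exact subset_union_right
    exact (root_antichain hB hA this).symm

lemma Good.roots_in_block (h : Good F) {A B C : Finset V} (hC : C ∈ blocks F) (hA : A ∈ roots F)
    (hB : B ∈ roots F) (hne : A ≠ B) (hAC : A ⊆ C) (hBC : B ⊆ C) : A ∪ B = C := by
  obtain ⟨hA1, hA2, hA3, hA4⟩ := mem_roots.1 hA
  obtain ⟨hB1, hB2, hB3, hB4⟩ := mem_roots.1 hB
  by_contra hcon
  have h1 : A ⊂ A ∪ B := by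
    refine Finset.ssubset_iff_subset_ne.2 ⟨subset_union_left, fun he => hne ?_⟩
    have : B ⊆ A := by rw [he]; exact subset_union_right
    exact (root_antichain hB hA this).symm
  have h2 : A ∪ B ⊂ C := Finset.ssubset_iff_subset_ne.2 ⟨union_subset hAC hBC, hcon⟩
  exact (mem_blocks.1 hC).2.2.1 (mem_full.2
    (h.chain A hA1 _ (h.union A hA1 B hB1) C (mem_blocks.1 hC).1 hA2 h1 h2))

lemma root_ne_block {A C : Finset V} (hA : A ∈ roots F) (hC : C ∈ blocks F) : A ≠ C := by
  rintro rfl
  obtain ⟨_, _, _, B, hB, hBne, hBA⟩ := mem_blocks.1 hC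
  exact (Finset.ssubset_iff_subset_ne.1 hBA).2 ((mem_roots.1 hA).2.2.2 B hB hBne hBA.1)

/-- Every nonempty member outside `full F` contains a root. -/
lemma exists_root {X : Finset V} (hX : X ∈ F) (hne : X.Nonempty) (hXf : X ∉ full F) :
    ∃ A ∈ roots F, A ⊆ X := by
  obtain ⟨A, hA, hmin⟩ := (F.filter (fun A => A.Nonempty ∧ A ⊆ X)).exists_min_image
    Finset.card ⟨X, by simp [hX, hne]⟩
  rw [mem_filter] at hA
  obtain ⟨hA1, hA2, hA3⟩ := hA
  refine ⟨A, mem_roots.2 ⟨hA1, hA2, fun h => hXf (full_up A h X hA3), ?_⟩, hA3⟩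
  intro B hB hBne hBA
  have := hmin B (mem_filter.2 ⟨hB, hBne, hBA.trans hA3⟩)
  exact Finset.eq_of_subset_of_card_le hBA this

/-- The blocks above a root. -/
def Bl (F : Finset (Finset V)) (A : Finset V) : Finset (Finset V) :=
  (blocks F).filter (fun C => A ⊆ C)

/-- The roots below a block. -/
def Rt (F : Finset (Finset V)) (C : Finset V) : Finset (Finset V) :=
  (roots F).filter (fun A => A ⊆ C)

lemma mem_Bl {A C : Finset V} : C ∈ Bl F A ↔ C ∈ blocks F ∧ A ⊆ C := by simp [Bl]

lemma mem_Rt {A C : Finset V} : A ∈ Rt F C ↔ A ∈ roots F ∧ A ⊆ C := by simp [Rt]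

/-- The boundary pairs above a root which are not above a block above the root. -/
def bd0 (F : Finset (Finset V)) (A : Finset V) : Finset (Finset V × V) :=
  (bd (full F) A).filter (fun p => ∀ C ∈ Bl F A, ¬ C ⊆ p.1)

lemma mem_bd0 {A : Finset V} {p : Finset V × V} :
    p ∈ bd0 F A ↔ p ∈ bd (full F) A ∧ ∀ C ∈ Bl F A, ¬ C ⊆ p.1 := by
  simp [bd0]

/-- The slack of a root. -/
def slack (F : Finset (Finset V)) (A : Finset V) : ℤ :=
  (bd0 F A).card - (Fintype.card V - 2 * A.card) + ∑ C ∈ Bl F A, ((C \ A).card : ℤ)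

/-- The gain of a block. -/
def gain (F : Finset (Finset V)) (C : Finset V) : ℤ :=
  (bd (full F) C).card - (Fintype.card V - 2 * C.card) - ∑ A ∈ Rt F C, ((C \ A).card : ℤ)

lemma sum_swap (f : Finset V → Finset V → ℤ) :
    ∑ C ∈ blocks F, ∑ A ∈ Rt F C, f A C = ∑ A ∈ roots F, ∑ C ∈ Bl F A, f A C := by
  refine Finset.sum_comm' fun C A => ?_
  rw [mem_Bl, mem_Rt]
  tauto

lemma sum_M (f : Finset V → ℤ) :
    ∑ A ∈ F.erase ∅ \ full F, f A = ∑ A ∈ roots F, f A + ∑ A ∈ blocks F, f A :=
  (Finset.sum_filter_add_sum_filter_not _ _ _).symm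

/-- The boundary pairs of the roots and the blocks. -/
lemma Good.boundary (h : Good F) :
    ∑ A ∈ roots F, ((bd0 F A).card : ℤ) + ∑ C ∈ blocks F, ((bd (full F) C).card : ℤ) ≤
      (bd (full F) ∅).card := by
  classical
  have hd1 : ((roots F : Finset (Finset V)) : Set (Finset V)).PairwiseDisjoint (bd0 F) := by
    intro A hA B hB hne
    rw [Function.onFun, Finset.disjoint_left]
    intro p hp hp'
    rw [mem_bd0, mem_bd] at hp hp'
    rcases h.union_roots hA hB hne with h1 | h1
    · exact hp.1.2.1 (full_up _ h1 _ (union_subset hp.1.1 hp'.1.1))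
    · exact hp.2 _ (mem_Bl.2 ⟨h1, subset_union_left⟩) (union_subset hp.1.1 hp'.1.1)
  have hd2 : ((blocks F : Finset (Finset V)) : Set (Finset V)).PairwiseDisjoint
      (bd (full F)) := by
    intro A hA B hB hne
    rw [Function.onFun, Finset.disjoint_left]
    intro p hp hp'
    rw [mem_bd] at hp hp'
    have h1 := h.union_block hA (mem_blocks.1 hB).1 (fun hBA => hne (h.block_antichain hB hA hBA).symm)
    exact hp.2.1 (full_up _ h1 _ (union_subset hp.1 hp'.1))
  have hd3 : Disjoint ((roots F).biUnion (bd0 F)) ((blocks F).biUnion (bd (full F))) := by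
    rw [Finset.disjoint_left]
    intro p hp hp'
    rw [mem_biUnion] at hp hp'
    obtain ⟨A, hA, hp⟩ := hp
    obtain ⟨C, hC, hp'⟩ := hp'
    rw [mem_bd0, mem_bd] at hp
    rw [mem_bd] at hp'
    by_cases hAC : A ⊆ C
    · exact hp.2 C (mem_Bl.2 ⟨hC, hAC⟩) hp'.1
    · exact hp.1.2.1 (full_up _ (h.union_block hC (mem_roots.1 hA).1 hAC) _
        (union_subset hp'.1 hp.1.1))
  have hsub : (roots F).biUnion (bd0 F) ∪ (blocks F).biUnion (bd (full F)) ⊆ bd (full F) ∅ := by
    intro p hp
    rw [mem_union, mem_biUnion, mem_biUnion] at hp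
    rcases hp with ⟨A, _, hp⟩ | ⟨C, _, hp⟩
    · rw [mem_bd0, mem_bd] at hp
      exact mem_bd.2 ⟨empty_subset _, hp.1.2⟩
    · rw [mem_bd] at hp
      exact mem_bd.2 ⟨empty_subset _, hp.2⟩
  have h1 := Finset.card_le_card hsub
  rw [card_union_of_disjoint hd3, card_biUnion hd1, card_biUnion hd2] at h1
  exact_mod_cast h1

/-- The sum over the nonempty members. -/
lemma Good.sum_ge (h : Good F) (h0 : ∅ ∉ full F) :
    ∑ C ∈ blocks F, gain F C + ∑ A ∈ roots F, slack F A ≤
      ∑ A ∈ F.erase ∅, (2 * (A.card : ℤ) - Fintype.card V) := by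
  have hHF : full F ⊆ F.erase ∅ := fun A hA =>
    mem_erase.2 ⟨fun h' => h0 (h' ▸ hA), mem_full.1 hA A Subset.rfl⟩
  have hF : ∑ A ∈ F.erase ∅, (2 * (A.card : ℤ) - Fintype.card V) =
      ∑ A ∈ F.erase ∅ \ full F, (2 * (A.card : ℤ) - Fintype.card V) +
      ∑ A ∈ full F, (2 * (A.card : ℤ) - Fintype.card V) := (Finset.sum_sdiff hHF).symm
  rw [hF, sum_upset full_up, sum_M]
  have hb := h.boundary
  have hs := sum_swap (F := F) (fun A C => ((C \ A).card : ℤ))
  have e1 : ∑ C ∈ blocks F, gain F C = ∑ C ∈ blocks F, ((bd (full F) C).card : ℤ) +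
      ∑ C ∈ blocks F, (2 * (C.card : ℤ) - Fintype.card V) -
      ∑ C ∈ blocks F, ∑ A ∈ Rt F C, ((C \ A).card : ℤ) := by
    rw [← sum_add_distrib, ← sum_sub_distrib]
    refine Finset.sum_congr rfl fun C _ => ?_
    unfold gain
    ring
  have e2 : ∑ A ∈ roots F, slack F A = ∑ A ∈ roots F, ((bd0 F A).card : ℤ) +
      ∑ A ∈ roots F, (2 * (A.card : ℤ) - Fintype.card V) +
      ∑ A ∈ roots F, ∑ C ∈ Bl F A, ((C \ A).card : ℤ) := by
    rw [← sum_add_distrib, ← sum_add_distrib]
    refine Finset.sum_congr rfl fun A _ => ?_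
    unfold slack
    ring
  rw [e1, e2, hs]
  linarith

/-- The complements of the roots in a block are disjoint. -/
lemma Good.disj (h : Good F) {C : Finset V} (hC : C ∈ blocks F) :
    ((Rt F C : Finset (Finset V)) : Set (Finset V)).PairwiseDisjoint (fun A => C \ A) := by
  intro A hA B hB hne
  rw [Function.onFun, Finset.disjoint_left]
  intro x hx hx'
  rw [mem_coe, mem_Rt] at hA hB
  rw [mem_sdiff] at hx hx'
  have h1 := h.roots_in_block hC hA.1 hB.1 hne hA.2 hB.2
  rw [← h1, mem_union] at hx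
  rcases hx.1 with h2 | h2
  · exact hx.2 h2
  · exact hx'.2 h2

lemma Good.sum_compl (h : Good F) {C : Finset V} (hC : C ∈ blocks F) :
    ∑ A ∈ Rt F C, ((C \ A).card : ℤ) ≤ C.card := by
  classical
  have h1 : (Rt F C).biUnion (fun A => C \ A) ⊆ C := by
    intro x hx
    rw [mem_biUnion] at hx
    obtain ⟨A, _, hx⟩ := hx
    exact (mem_sdiff.1 hx).1
  have h2 := Finset.card_le_card h1
  rw [card_biUnion (h.disj hC)] at h2
  exact_mod_cast h2

lemma Good.gain_ge (h : Good F) {C : Finset V} (hC : C ∈ blocks F) :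
    ((bd (full F) C).card : ℤ) - (Fintype.card V - C.card) ≤ gain F C := by
  have h1 := h.sum_compl hC
  unfold gain
  linarith

lemma Good.gain_nonneg (h : Good F) {C : Finset V} (hC : C ∈ blocks F) : 0 ≤ gain F C := by
  have h1 := h.gain_ge hC
  have h2 := bd_ge full_up h.univ_full (mem_blocks.1 hC).2.2.1
  have h3 := Finset.card_le_univ C
  omega

/-- A root is of type I if some set in `full F` above it contains no block above it. -/
lemma slack_pos_of_typeI {A : Finset V} (hA : A ∈ roots F)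
    (hI : ∃ W ∈ full F, A ⊆ W ∧ ∀ C ∈ Bl F A, ¬ C ⊆ W) : 0 < slack F A := by
  classical
  obtain ⟨W0, hW0⟩ := hI
  obtain ⟨W, hW, hmax⟩ := ((full F).filter (fun W => A ⊆ W ∧ ∀ C ∈ Bl F A, ¬ C ⊆ W)).exists_max_image
    Finset.card ⟨W0, mem_filter.2 hW0⟩
  rw [mem_filter] at hW
  obtain ⟨hW1, hW2, hW3⟩ := hW
  have hx : ∀ x : V, ∃ C : Finset V, x ∉ W → C ∈ Bl F A ∧ C ⊆ insert x W := by
    intro x
    by_cases hxW : x ∈ W
    · exact ⟨∅, fun h' => absurd hxW h'⟩
    · by_contra hcon
      push Not at hcon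
      have h1 := hmax (insert x W) (mem_filter.2 ⟨full_up W hW1 _ (subset_insert _ _),
        hW2.trans (subset_insert _ _), fun C hC => ((hcon C).2 hC)⟩)
      rw [card_insert_of_notMem hxW] at h1
      omega
  choose f hf using hx
  have hinj : (Wᶜ).card ≤ (Bl F A).card := by
    refine Finset.card_le_card_of_injOn f (fun x hx => ?_) ?_
    · rw [mem_coe, mem_compl] at hx
      exact (hf x hx).1
    · intro x hx y hy hxy
      rw [mem_coe, mem_compl] at hx hy
      by_contra hne
      have h1 := hf x hx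
      have h2 := hf y hy
      rw [← hxy] at h2
      refine hW3 (f x) h1.1 fun z hz => ?_
      have h3 := h1.2 hz
      have h4 := h2.2 hz
      rw [mem_insert] at h3 h4
      rcases h3 with h3 | h3
      · rcases h4 with h4 | h4
        · exact absurd (h3.symm.trans h4) hne
        · exact h4
      · exact h3
  have hS : ((Bl F A).card : ℤ) ≤ ∑ C ∈ Bl F A, ((C \ A).card : ℤ) := by
    have h1 : ∑ C ∈ Bl F A, (1 : ℤ) ≤ ∑ C ∈ Bl F A, ((C \ A).card : ℤ) := by
      refine Finset.sum_le_sum fun C hC => ?_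
      have h2 : 0 < (C \ A).card := by
        rw [Finset.card_pos, sdiff_nonempty]
        intro hCA
        rw [mem_Bl] at hC
        exact root_ne_block hA hC.1 (hC.2.antisymm hCA)
      exact_mod_cast h2
    rwa [sum_const, nsmul_eq_mul, mul_one] at h1
  have hB : (W \ A).card ≤ (bd0 F A).card := by
    refine (bd_ge_in full_up hW2 hW1 (mem_roots.1 hA).2.2.1).trans (Finset.card_le_card ?_)
    intro p hp
    rw [mem_filter] at hp
    rw [mem_bd0]
    refine ⟨hp.1, fun C hC hCp => hW3 C hC ?_⟩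
    exact hCp.trans ((subset_insert _ _).trans hp.2)
  have hApos : 0 < A.card := (mem_roots.1 hA).2.1.card_pos
  rw [card_sdiff_of_subset hW2] at hB
  rw [card_compl] at hinj
  have h5 := Finset.card_le_univ W
  have h6 := Finset.card_le_card hW2
  unfold slack
  omega

/-- The critical roots: their blocks have a large gain. -/
lemma Good.crit (h : Good F) {A : Finset V} (hA : A ∈ roots F) (hs : slack F A ≤ 0)
    (ha : 2 ≤ A.card) (ht : 2 ≤ (Bl F A).card) :
    ∃ u : ℕ, A.card ≤ u ∧ - slack F A ≤ (u : ℤ) - A.card ∧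
      ∀ C ∈ Bl F A, (2 : ℤ) ^ u - 2 * u + 1 ≤ gain F C := by
  classical
  have hII : ∀ W ∈ full F, A ⊆ W → ∃ C ∈ Bl F A, C ⊆ W := by
    intro W hW hAW
    by_contra hcon
    push Not at hcon
    exact absurd hs (not_le.2 (slack_pos_of_typeI hA ⟨W, hW, hAW, hcon⟩))
  set P : Finset V := (Bl F A).biUnion id with hP
  set U : Finset V := Pᶜ with hU
  have hCU : ∀ C ∈ Bl F A, ∀ x ∈ C, x ∉ U := by
    intro C hC x hx hxU
    rw [hU, mem_compl, hP, mem_biUnion] at hxU
    exact hxU ⟨C, hC, hx⟩
  have hUcard : (U.card : ℤ) = Fintype.card V - P.card := by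
    rw [hU, card_compl, Nat.cast_sub (Finset.card_le_univ _)]
  have h1 : (P.card : ℤ) - A.card ≤ ∑ C ∈ Bl F A, ((C \ A).card : ℤ) := by
    have h2 : P \ A ⊆ (Bl F A).biUnion (fun C => C \ A) := by
      intro x hx
      rw [mem_sdiff, hP, mem_biUnion] at hx
      obtain ⟨⟨C, hC, hxC⟩, hxA⟩ := hx
      exact mem_biUnion.2 ⟨C, hC, mem_sdiff.2 ⟨hxC, hxA⟩⟩
    have h3 := (Finset.card_le_card h2).trans Finset.card_biUnion_le
    have h4 := Finset.le_card_sdiff A P
    have h5 : ((∑ C ∈ Bl F A, (C \ A).card : ℕ) : ℤ) = ∑ C ∈ Bl F A, ((C \ A).card : ℤ) := by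
      push_cast; rfl
    rw [← h5]
    omega
  have hslack : ((bd0 F A).card : ℤ) + A.card - U.card ≤ slack F A := by
    unfold slack
    rw [hUcard]
    linarith
  refine ⟨U.card, by omega, by omega, ?_⟩
  intro C hC
  have hCb : C ∈ blocks F := (mem_Bl.1 hC).1
  have hAC : A ⊆ C := (mem_Bl.1 hC).2
  have hanti : ∀ C' ∈ Bl F A, C' ⊆ C → C' = C := fun C' hC' hsub =>
    h.block_antichain (mem_Bl.1 hC').1 hCb hsub
  have hdU : ∀ C' ∈ Bl F A, ∀ S ⊆ U, C' ⊆ C ∪ S → C' = C := by
    intro C' hC' S hS hsub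
    refine hanti C' hC' fun x hx => ?_
    rcases mem_union.1 (hsub hx) with h3 | h3
    · exact h3
    · exact absurd (hS h3) (hCU C' hC' x hx)
  -- the number of the sets `C ∪ S` in `full F`
  obtain ⟨x0, hx0C, hx0A⟩ : ∃ x ∈ C, x ∉ A := by
    by_contra hcon
    push Not at hcon
    exact root_ne_block hA hCb (hAC.antisymm hcon)
  have hkap : ((U.powerset).filter (fun S => C ∪ S ∈ full F)).card ≤ (bd0 F A).card := by
    refine Finset.card_le_card_of_injOn (fun S => ((C ∪ S).erase x0, x0)) ?_ ?_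
    · intro S hS
      rw [mem_coe, mem_filter, mem_powerset] at hS
      rw [mem_coe, mem_bd0, mem_bd]
      have hno : ∀ C' ∈ Bl F A, ¬ C' ⊆ (C ∪ S).erase x0 := by
        intro C' hC' hsub
        have h3 := hdU C' hC' S hS.1 (hsub.trans (erase_subset _ _))
        rw [h3] at hsub
        exact notMem_erase x0 _ (hsub hx0C)
      have hAs : A ⊆ (C ∪ S).erase x0 := by
        intro a ha'
        exact mem_erase.2 ⟨fun h' => hx0A (h' ▸ ha'), mem_union_left _ (hAC ha')⟩
      refine ⟨⟨hAs, ?_, notMem_erase _ _, ?_⟩, hno⟩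
      · intro hf
        obtain ⟨C', hC', hsub⟩ := hII _ hf hAs
        exact hno C' hC' hsub
      · rw [insert_erase (mem_union_left _ hx0C)]
        exact hS.2
    · intro S hS S' hS' hSS
      rw [mem_coe, mem_filter, mem_powerset] at hS hS'
      simp only [Prod.mk.injEq, and_true] at hSS
      have h3 : C ∪ S = C ∪ S' := by
        rw [← insert_erase (mem_union_left S hx0C : x0 ∈ C ∪ S), hSS,
          insert_erase (mem_union_left S' hx0C)]
      ext x
      constructor
      · intro hx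
        have h4 : x ∈ C ∪ S' := h3 ▸ mem_union_right _ hx
        rcases mem_union.1 h4 with h5 | h5
        · exact absurd (hS.1 hx) (hCU C hC x h5)
        · exact h5
      · intro hx
        have h4 : x ∈ C ∪ S := h3 ▸ mem_union_right _ hx
        rcases mem_union.1 h4 with h5 | h5
        · exact absurd (hS'.1 hx) (hCU C hC x h5)
        · exact h5
  -- another block
  obtain ⟨C', hC', hne⟩ : ∃ C' ∈ Bl F A, C' ≠ C := by
    by_contra hcon
    push Not at hcon
    have h3 : Bl F A ⊆ {C} := fun C' hC' => mem_singleton.2 (hcon C' hC')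
    have := Finset.card_le_card h3
    rw [card_singleton] at this
    omega
  set R : Finset V := (C ∪ U)ᶜ with hR
  have hCR : ∀ x ∈ R, x ∉ C ∧ x ∉ U := by
    intro x hx
    rw [hR, mem_compl, mem_union] at hx
    tauto
  have hC'sub : C' ⊆ C ∪ R := by
    intro x hx
    by_cases hxC : x ∈ C
    · exact mem_union_left _ hxC
    · refine mem_union_right _ ?_
      rw [hR, mem_compl, mem_union]
      rintro (h3 | h3)
      · exact hxC h3
      · exact hCU C' hC' x hx h3
  have hfull : C ∪ C' ∈ full F := h.union_block hCb (mem_blocks.1 (mem_Bl.1 hC').1).1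
    (fun hsub => hne (hanti C' hC' hsub))
  have hRpos : 1 ≤ R.card := by
    rw [Nat.one_le_iff_ne_zero, Ne, card_eq_zero]
    intro h3
    rw [h3, union_empty] at hC'sub
    exact hne (hanti C' hC' hC'sub)
  have hn : (Fintype.card V : ℤ) = C.card + U.card + R.card := by
    have h3 : Disjoint C U := Finset.disjoint_left.2 fun x hx hxU => hCU C hC x hx hxU
    have h4 : R.card = Fintype.card V - (C ∪ U).card := card_compl _
    have h5 := Finset.card_le_univ (C ∪ U)
    have h6 : (C ∪ U).card = C.card + U.card := card_union_of_disjoint h3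
    omega
  -- the boundary pairs above `C`
  have hbig : ((U.powerset).filter (fun S => C ∪ S ∉ full F)).card * R.card ≤
      (bd (full F) C).card := by
    set G : Finset V → Finset (Finset V × V) := fun S =>
      (bd (full F) (C ∪ S)).filter (fun p => insert p.2 p.1 ⊆ C ∪ S ∪ R) with hG
    have hcard : ∀ S ∈ (U.powerset).filter (fun S => C ∪ S ∉ full F), R.card ≤ (G S).card := by
      intro S hS
      rw [mem_filter, mem_powerset] at hS
      have hW : C ∪ S ∪ R ∈ full F := by
        refine full_up _ hfull _ (union_subset ?_ ?_)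
        · exact subset_union_left.trans subset_union_left
        · exact hC'sub.trans (union_subset_union_left subset_union_left)
      have h3 := bd_ge_in full_up (subset_union_left : C ∪ S ⊆ C ∪ S ∪ R) hW hS.2
      refine le_trans (le_of_eq ?_) h3
      congr 1
      rw [union_sdiff_left]
      refine (sdiff_eq_self_of_disjoint ?_).symm
      rw [Finset.disjoint_left]
      intro x hx hx'
      rcases mem_union.1 hx' with h4 | h4
      · exact (hCR x hx).1 h4
      · exact (hCR x hx).2 (hS.1 h4)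
    have hdisj : (((U.powerset).filter (fun S => C ∪ S ∉ full F) : Finset (Finset V)) :
        Set (Finset V)).PairwiseDisjoint G := by
      intro S hS S' hS' hne'
      rw [mem_coe, mem_filter, mem_powerset] at hS hS'
      rw [Function.onFun, Finset.disjoint_left]
      intro p hp hp'
      rw [hG, mem_filter, mem_bd] at hp hp'
      apply hne'
      have key : ∀ S ⊆ U, C ∪ S ⊆ p.1 → insert p.2 p.1 ⊆ C ∪ S ∪ R → p.1 ∩ U = S := by
        intro S hS h3 h4
        ext x
        rw [mem_inter]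
        constructor
        · rintro ⟨h5, h6⟩
          have h7 := h4 (mem_insert_of_mem h5)
          rw [mem_union, mem_union] at h7
          rcases h7 with (h7 | h7) | h7
          · exact absurd h6 (hCU C hC x h7)
          · exact h7
          · exact absurd h6 (hCR x h7).2
        · intro h5
          exact ⟨h3 (mem_union_right _ h5), hS h5⟩
      rw [← key S hS.1 hp.1.1 hp.2, key S' hS'.1 hp'.1.1 hp'.2]
    have hsub : ((U.powerset).filter (fun S => C ∪ S ∉ full F)).biUnion G ⊆ bd (full F) C := by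
      intro p hp
      rw [mem_biUnion] at hp
      obtain ⟨S, _, hp⟩ := hp
      rw [hG, mem_filter, mem_bd] at hp
      exact mem_bd.2 ⟨subset_union_left.trans hp.1.1, hp.1.2⟩
    have h3 := Finset.card_le_card hsub
    rw [card_biUnion hdisj] at h3
    refine le_trans ?_ h3
    rw [← smul_eq_mul]
    exact Finset.card_nsmul_le_sum _ _ _ hcard
  have hsum : ((U.powerset).filter (fun S => C ∪ S ∈ full F)).card +
      ((U.powerset).filter (fun S => C ∪ S ∉ full F)).card = 2 ^ U.card := by
    rw [Finset.card_filter_add_card_filter_not, card_powerset]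
  set κ := ((U.powerset).filter (fun S => C ∪ S ∈ full F)).card with hκ
  set ν := ((U.powerset).filter (fun S => C ∪ S ∉ full F)).card with hν
  have hgain := h.gain_ge hCb
  have hbig' : (ν : ℤ) * R.card ≤ (bd (full F) C).card := by exact_mod_cast hbig
  have hsum' : (κ : ℤ) + ν = 2 ^ U.card := by exact_mod_cast hsum
  have hkap' : (κ : ℤ) ≤ U.card - A.card := by
    have : (κ : ℤ) ≤ (bd0 F A).card := by exact_mod_cast hkap
    linarith
  have hR1 : (1 : ℤ) ≤ R.card := by exact_mod_cast hRpos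
  have h2u : (U.card : ℤ) + 1 ≤ 2 ^ U.card := by
    have := Nat.lt_two_pow_self (n := U.card)
    exact_mod_cast this
  have ha' : (2 : ℤ) ≤ A.card := by exact_mod_cast ha
  have hν1 : (0 : ℤ) ≤ ν - 1 := by linarith
  nlinarith [mul_le_mul_of_nonneg_left hR1 hν1]

lemma arith (s u m : ℕ) (hm : 2 ≤ m) (hs : s ≤ m + 1) (hu : m ≤ u) :
    (s : ℤ) * (u - m) < 2 * ((2 : ℤ) ^ u - 2 * u + 1) := by
  have h1 : (s : ℤ) * (u - m) ≤ (m + 1) * (u - m) := by
    apply mul_le_mul_of_nonneg_right
    · exact_mod_cast hs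
    · have : (m : ℤ) ≤ u := by exact_mod_cast hu
      linarith
  refine lt_of_le_of_lt h1 ?_
  have hm' : (2 : ℤ) ≤ m := by exact_mod_cast hm
  have hu' : (m : ℤ) ≤ u := by exact_mod_cast hu
  rcases Nat.lt_or_ge u 4 with h4 | h4
  · interval_cases u
    · omega
    · omega
    · have : m = 2 := by omega
      subst this
      norm_num
    · interval_cases m <;> norm_num
  · have h5 : u * u ≤ 2 ^ u := by
      clear h1 hu hu' hs
      induction u, h4 using Nat.le_induction with
      | base => norm_num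
      | succ k hk ih =>
        rw [pow_succ]
        nlinarith
    have h6 : (u : ℤ) * u ≤ 2 ^ u := by exact_mod_cast h5
    have h7 : (4 : ℤ) ≤ u := by exact_mod_cast h4
    nlinarith [sq_nonneg ((u : ℤ) - 1 - 2 * m)]

/-- The positive part of the negative of the slack. -/
def tau (F : Finset (Finset V)) (A : Finset V) : ℤ := max 0 (- slack F A)

lemma Good.block (h : Good F) (hsize : ∀ A ∈ roots F, 2 ≤ A.card)
    (hBl : ∀ A ∈ roots F, slack F A ≤ 0 → 2 ≤ (Bl F A).card) {C : Finset V}
    (hC : C ∈ blocks F) :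
    0 ≤ 2 * gain F C - ∑ A ∈ Rt F C, tau F A ∧
    ((∃ A ∈ Rt F C, slack F A ≤ 0) → 0 < 2 * gain F C - ∑ A ∈ Rt F C, tau F A) := by
  classical
  set Cr := (Rt F C).filter (fun A => slack F A ≤ 0) with hCr
  have hsum : ∑ A ∈ Rt F C, tau F A = ∑ A ∈ Cr, (- slack F A) := by
    rw [hCr, Finset.sum_filter]
    refine Finset.sum_congr rfl fun A _ => ?_
    unfold tau
    split_ifs with h1
    · exact max_eq_right (by linarith)
    · exact max_eq_left (by linarith)
  rw [hsum]
  rcases Cr.eq_empty_or_nonempty with hemp | hne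
  · rw [hemp, sum_empty, sub_zero]
    refine ⟨by linarith [h.gain_nonneg hC], ?_⟩
    rintro ⟨A, hA, hs⟩
    have : A ∈ Cr := mem_filter.2 ⟨hA, hs⟩
    rw [hemp] at this
    exact absurd this (notMem_empty _)
  · have hcr : ∀ A ∈ Cr, ∃ u : ℕ, A.card ≤ u ∧ - slack F A ≤ (u : ℤ) - A.card ∧
        (2 : ℤ) ^ u - 2 * u + 1 ≤ gain F C := by
      intro A hA
      rw [hCr, mem_filter, mem_Rt] at hA
      obtain ⟨u, h1, h2, h3⟩ := h.crit hA.1.1 hA.2 (hsize A hA.1.1) (hBl A hA.1.1 hA.2)
      exact ⟨u, h1, h2, h3 C (mem_Bl.2 ⟨hC, hA.1.2⟩)⟩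
    have hcr' : ∀ A, ∃ u : ℕ, A ∈ Cr → A.card ≤ u ∧ - slack F A ≤ (u : ℤ) - A.card ∧
        (2 : ℤ) ^ u - 2 * u + 1 ≤ gain F C := by
      intro A
      by_cases hA : A ∈ Cr
      · obtain ⟨u, hu⟩ := hcr A hA
        exact ⟨u, fun _ => hu⟩
      · exact ⟨0, fun h' => absurd h' hA⟩
    choose u hu using hcr'
    obtain ⟨A0, hA0, hmin⟩ := Cr.exists_min_image Finset.card hne
    obtain ⟨A1, hA1, hmax⟩ := Cr.exists_max_image u hne
    have hA0' := mem_Rt.1 (mem_filter.1 hA0).1
    have hcardCr : Cr.card ≤ A0.card + 1 := by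
      have h1 : (Cr.erase A0).biUnion (fun A => C \ A) ⊆ A0 := by
        intro x hx
        rw [mem_biUnion] at hx
        obtain ⟨A, hA, hx⟩ := hx
        rw [mem_erase] at hA
        have hA' := mem_Rt.1 (mem_filter.1 hA.2).1
        rw [mem_sdiff] at hx
        have h2 := h.roots_in_block hC hA'.1 hA0'.1 hA.1 hA'.2 hA0'.2
        rw [← h2, mem_union] at hx
        tauto
      have hd : (((Cr.erase A0) : Finset (Finset V)) : Set (Finset V)).PairwiseDisjoint
          (fun A => C \ A) := by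
        refine (h.disj hC).subset ?_
        intro A hA
        rw [mem_coe, mem_erase, hCr, mem_filter] at hA
        exact hA.2.1
      have h3 := Finset.card_le_card h1
      rw [card_biUnion hd] at h3
      have h4 : (Cr.erase A0).card • 1 ≤ ∑ A ∈ Cr.erase A0, (C \ A).card := by
        refine Finset.card_nsmul_le_sum _ _ _ fun A hA => ?_
        rw [Nat.one_le_iff_ne_zero, Ne, card_eq_zero, sdiff_eq_empty_iff_subset]
        intro hCA
        rw [mem_erase, hCr, mem_filter, mem_Rt] at hA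
        exact root_ne_block hA.2.1.1 hC (hA.2.1.2.antisymm hCA)
      rw [smul_eq_mul, mul_one, card_erase_of_mem hA0] at h4
      omega
    have hm : 2 ≤ A0.card := hsize A0 hA0'.1
    have hmu : A0.card ≤ u A1 := ((hu A0 hA0).1).trans (hmax A0 hA0)
    have harith := arith Cr.card (u A1) A0.card hm hcardCr hmu
    have hle : ∑ A ∈ Cr, (- slack F A) ≤ (Cr.card : ℤ) * (u A1 - A0.card) := by
      have h1 : ∑ A ∈ Cr, (- slack F A) ≤ ∑ _A ∈ Cr, ((u A1 : ℤ) - A0.card) := by
        refine Finset.sum_le_sum fun A hA => ?_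
        have h2 := (hu A hA).2.1
        have h3 : (u A : ℤ) ≤ u A1 := by exact_mod_cast hmax A hA
        have h4 : (A0.card : ℤ) ≤ A.card := by exact_mod_cast hmin A hA
        linarith
      rwa [sum_const, nsmul_eq_mul] at h1
    have hg := (hu A1 hA1).2.2
    have hpos : 0 < 2 * gain F C - ∑ A ∈ Cr, (- slack F A) := by linarith
    exact ⟨hpos.le, fun _ => hpos⟩

/-- The main inequality. -/
theorem Good.sum_pos (h : Good F) (hV : Nonempty V) (h1 : ∀ A ∈ F, A.card ≠ 1)
    (hBl : ∀ A ∈ roots F, slack F A ≤ 0 → 2 ≤ (Bl F A).card) :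
    0 < ∑ A ∈ F.erase ∅, (2 * (A.card : ℤ) - Fintype.card V) := by
  classical
  have h0 : ∅ ∉ full F := by
    intro h0
    obtain ⟨x⟩ := hV
    exact h1 {x} ((mem_full.1 h0) {x} (empty_subset _)) (card_singleton x)
  have hsize : ∀ A ∈ roots F, 2 ≤ A.card := by
    intro A hA
    have h2 := (mem_roots.1 hA).2.1.card_pos
    have h3 := h1 A (mem_roots.1 hA).1
    omega
  rcases (roots F).eq_empty_or_nonempty with hemp | hne
  · -- the family is an up-set
    have hM : F.erase ∅ \ full F = ∅ := by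
      rw [Finset.eq_empty_iff_forall_notMem]
      intro X hX
      rw [mem_sdiff, mem_erase] at hX
      obtain ⟨A, hA, _⟩ := exists_root hX.1.2 (nonempty_iff_ne_empty.2 hX.1.1) hX.2
      rw [hemp] at hA
      exact notMem_empty _ hA
    have hHF : full F ⊆ F.erase ∅ := fun A hA =>
      mem_erase.2 ⟨fun h' => h0 (h' ▸ hA), mem_full.1 hA A Subset.rfl⟩
    rw [← Finset.sum_sdiff hHF, hM, sum_empty, zero_add, sum_upset full_up]
    have h2 := bd_ge full_up h.univ_full h0
    have h3 : 0 < Fintype.card V := Fintype.card_pos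
    rw [card_empty] at h2
    omega
  · have hS := h.sum_ge h0
    have hsw := sum_swap (F := F) (fun A _ => tau F A)
    have e1 : ∑ A ∈ roots F, ∑ _C ∈ Bl F A, tau F A =
        ∑ A ∈ roots F, ((Bl F A).card : ℤ) * tau F A :=
      Finset.sum_congr rfl fun A _ => by rw [sum_const, nsmul_eq_mul]
    have e2 : 2 * (∑ C ∈ blocks F, gain F C + ∑ A ∈ roots F, slack F A) =
        ∑ C ∈ blocks F, (2 * gain F C - ∑ A ∈ Rt F C, tau F A) +
        ∑ A ∈ roots F, (2 * slack F A + ((Bl F A).card : ℤ) * tau F A) := by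
      rw [sum_sub_distrib, sum_add_distrib, hsw, e1, ← mul_sum, ← mul_sum]
      ring
    have hroot : ∀ A ∈ roots F, 0 ≤ 2 * slack F A + ((Bl F A).card : ℤ) * tau F A := by
      intro A hA
      by_cases hs : slack F A ≤ 0
      · have h2 := hBl A hA hs
        have h3 : tau F A = - slack F A := max_eq_right (by linarith)
        rw [h3]
        have h4 : (2 : ℤ) ≤ (Bl F A).card := by exact_mod_cast h2
        nlinarith
      · have h3 : tau F A = 0 := max_eq_left (by linarith)
        rw [h3]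
        linarith
    have hb : ∀ C ∈ blocks F, 0 ≤ 2 * gain F C - ∑ A ∈ Rt F C, tau F A := fun C hC =>
      (h.block hsize hBl hC).1
    have hb' := Finset.sum_nonneg hb
    have hr' := Finset.sum_nonneg hroot
    obtain ⟨A, hA⟩ := hne
    by_cases hs : slack F A ≤ 0
    · have h2 := hBl A hA hs
      obtain ⟨C, hC⟩ : (Bl F A).Nonempty := by
        rw [← card_pos]
        omega
      rw [mem_Bl] at hC
      have h3 := (h.block hsize hBl hC.1).2 ⟨A, mem_Rt.2 ⟨hA, hC.2⟩, hs⟩
      have h4 := Finset.single_le_sum hb hC.1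
      linarith
    · have h3 : tau F A = 0 := max_eq_left (by linarith)
      have h4 := Finset.single_le_sum hroot hA
      rw [h3] at h4
      linarith

omit [Fintype V] in
/-- If every nonempty member contains `A` or `D`, and some member contains both. -/
lemma of_two {A D X0 : Finset V} (hA : A.Nonempty) (hD : D.Nonempty)
    (hcov : ∀ X ∈ F, X.Nonempty → A ⊆ X ∨ D ⊆ X) (hX0 : X0 ∈ F) (hX0A : A ⊆ X0) (hX0D : D ⊆ X0) :
    ∃ x : V, (F.erase ∅).card < 2 * (F.filter (fun X => x ∈ X)).card := by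
  classical
  obtain ⟨a, ha⟩ := hA
  obtain ⟨d, hd⟩ := hD
  set FA := F.filter (fun X => a ∈ X) with hFA
  set FD := F.filter (fun X => d ∈ X) with hFD
  have h1 : F.erase ∅ ⊆ FA ∪ FD := by
    intro X hX
    rw [mem_erase] at hX
    rw [mem_union, hFA, hFD, mem_filter, mem_filter]
    rcases hcov X hX.2 (nonempty_iff_ne_empty.2 hX.1) with h | h
    · exact Or.inl ⟨hX.2, h ha⟩
    · exact Or.inr ⟨hX.2, h hd⟩
  have h2 : X0 ∈ FA ∩ FD := by
    rw [mem_inter, hFA, hFD, mem_filter, mem_filter]
    exact ⟨⟨hX0, hX0A ha⟩, ⟨hX0, hX0D hd⟩⟩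
  have h3 := Finset.card_le_card h1
  have h4 := Finset.card_union_add_card_inter FA FD
  have h5 : 0 < (FA ∩ FD).card := Finset.card_pos.2 ⟨X0, h2⟩
  rcases le_total FA.card FD.card with h6 | h6
  · exact ⟨d, by rw [← hFD]; omega⟩
  · exact ⟨a, by rw [← hFA]; omega⟩

/-- Families with a singleton. -/
lemma Good.of_singleton (h : Good F) {x : V} (hx : {x} ∈ F) :
    ∃ x : V, (F.erase ∅).card < 2 * (F.filter (fun X => x ∈ X)).card := by
  classical
  refine ⟨x, ?_⟩
  have h1 : ((F.erase ∅).filter (fun X => x ∉ X)).card ≤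
      ((F.filter (fun X => x ∈ X)).erase {x}).card := by
    refine Finset.card_le_card_of_injOn (fun X => insert x X) ?_ ?_
    · intro X hX
      rw [mem_coe, mem_filter, mem_erase] at hX
      rw [mem_coe, mem_erase, mem_filter]
      refine ⟨fun he => ?_, ?_, mem_insert_self _ _⟩
      · obtain ⟨y, hy⟩ := nonempty_iff_ne_empty.2 hX.1.1
        have h2 : y ∈ ({x} : Finset V) := he ▸ mem_insert_of_mem hy
        rw [mem_singleton] at h2
        exact hX.2 (h2 ▸ hy)
      · have h2 := h.union {x} hx X hX.1.2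
        rwa [← insert_eq] at h2
    · intro X hX Y hY hXY
      rw [mem_coe, mem_filter] at hX hY
      simp only at hXY
      rw [← erase_insert hX.2, hXY, erase_insert hY.2]
  have h2 : ({x} : Finset V) ∈ F.filter (fun X => x ∈ X) :=
    mem_filter.2 ⟨hx, mem_singleton_self x⟩
  rw [card_erase_of_mem h2] at h1
  have h3 : 0 < (F.filter (fun X => x ∈ X)).card := Finset.card_pos.2 ⟨_, h2⟩
  have h4 : ((F.erase ∅).filter (fun X => x ∈ X)).card ≤ (F.filter (fun X => x ∈ X)).card :=
    Finset.card_le_card (Finset.filter_subset_filter _ (erase_subset _ _))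
  have h5 := Finset.card_filter_add_card_filter_not (s := F.erase ∅) (fun X => x ∈ X)
  omega

/-- **Main theorem.** Some element lies in more than half of the nonempty members. -/
theorem Good.abundant (h : Good F) (hV : Nonempty V) :
    ∃ x : V, (F.erase ∅).card < 2 * (F.filter (fun X => x ∈ X)).card := by
  classical
  by_cases h1 : ∃ A ∈ F, A.card = 1
  · obtain ⟨A, hA, hA1⟩ := h1
    obtain ⟨x, rfl⟩ := card_eq_one.1 hA1
    exact h.of_singleton hA
  push Not at h1
  by_cases h2 : ∀ A ∈ roots F, slack F A ≤ 0 → 2 ≤ (Bl F A).card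
  · have hT := h.sum_pos hV h1 h2
    rw [FewBelow.sum_freq] at hT
    obtain ⟨x, _, hx⟩ := Finset.exists_lt_of_sum_lt (s := (univ : Finset V))
      (f := fun _ => (0 : ℤ))
      (g := fun x => 2 * (((F.erase ∅).filter (fun A => x ∈ A)).card : ℤ) - (F.erase ∅).card)
      (by simpa using hT)
    refine ⟨x, ?_⟩
    have h4 : ((F.erase ∅).filter (fun X => x ∈ X)).card ≤ (F.filter (fun X => x ∈ X)).card :=
      Finset.card_le_card (Finset.filter_subset_filter _ (erase_subset _ _))
    omega
  · push Not at h2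
    obtain ⟨A, hA, hs, ht⟩ := h2
    have hII : ∀ W ∈ full F, A ⊆ W → ∃ C ∈ Bl F A, C ⊆ W := by
      intro W hW hAW
      by_contra hcon
      push Not at hcon
      exact absurd hs (not_le.2 (slack_pos_of_typeI hA ⟨W, hW, hAW, hcon⟩))
    obtain ⟨C, hC, _⟩ := hII univ h.univ_full (subset_univ _)
    have hone : ∀ C' ∈ Bl F A, C' = C := by
      intro C' hC'
      have h3 : (Bl F A).card ≤ 1 := by omega
      exact Finset.card_le_one.1 h3 C' hC' C hC
    have hCb := mem_Bl.1 hC
    have hCF := (mem_blocks.1 hCb.1).1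
    have hAF := mem_roots.1 hA
    have hD : (C \ A).Nonempty := by
      rw [sdiff_nonempty]
      intro hCA
      exact root_ne_block hA hCb.1 (hCb.2.antisymm hCA)
    refine of_two hAF.2.1 hD ?_ hCF hCb.2 sdiff_subset
    intro X hX hXne
    by_cases hAX : A ⊆ X
    · exact Or.inl hAX
    · right
      have hun : C ⊆ A ∪ X := by
        by_cases hf : A ∪ X ∈ full F
        · obtain ⟨C', hC', hsub⟩ := hII _ hf subset_union_left
          rwa [hone C' hC'] at hsub
        · have hblock : A ∪ X ∈ blocks F := by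
            refine mem_blocks.2 ⟨h.union A hAF.1 X hX, hAF.2.1.mono subset_union_left, hf, A,
              hAF.1, hAF.2.1, ?_⟩
            refine Finset.ssubset_iff_subset_ne.2 ⟨subset_union_left, fun he => hAX ?_⟩
            have h3 : X ⊆ A := by rw [he]; exact subset_union_right
            rw [hAF.2.2.2 X hX hXne h3]
          rw [hone _ (mem_Bl.2 ⟨hblock, subset_union_left⟩)]
      intro x hx
      rw [mem_sdiff] at hx
      rcases mem_union.1 (hun hx.1) with h3 | h3
      · exact absurd h3 hx.2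
      · exact h3

end Pool.Agent.R102.ChainTwo
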