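import Mathlib
import Pool.Agent.R102.ChainTwo

set_option autoImplicit false

/-!
# Union-closed families whose members can be joined to the full part avoiding other members
-/

namespace Pool.Agent.R102.TypeOne

open Finset Pool.Agent.R102.TwoDense Pool.Agent.R102.ChainTwo

variable {V : Type*} [Fintype V] [DecidableEq V]

/-- The nonempty members which have a superset that is not a member. -/
def out (F : Finset (Finset V)) : Finset (Finset V) := F.erase ∅ \ full F

lemma mem_out {F : Finset (Finset V)} {A : Finset V} :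
    A ∈ out F ↔ A ∈ F ∧ A.Nonempty ∧ A ∉ full F := by
  rw [out, mem_sdiff, mem_erase, nonempty_iff_ne_empty]
  tauto

/-- The covers of `A`: the minimal members of `out F` properly containing `A`. -/
def Up (F : Finset (Finset V)) (A : Finset V) : Finset (Finset V) :=
  (out F).filter (fun Z => A ⊂ Z ∧ ∀ Y ∈ out F, A ⊂ Y → Y ⊆ Z → Y = Z)

/-- The members covered by `Z`. -/
def Lo (F : Finset (Finset V)) (Z : Finset V) : Finset (Finset V) :=
  (out F).filter (fun A => Z ∈ Up F A)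

variable {F : Finset (Finset V)}

lemma mem_Up {A Z : Finset V} :
    Z ∈ Up F A ↔ Z ∈ out F ∧ A ⊂ Z ∧ ∀ Y ∈ out F, A ⊂ Y → Y ⊆ Z → Y = Z := by
  simp [Up]

lemma mem_Lo {A Z : Finset V} : A ∈ Lo F Z ↔ A ∈ out F ∧ Z ∈ Up F A := by
  simp [Lo]

lemma exists_Up {A Z : Finset V} (hZ : Z ∈ out F) (hAZ : A ⊂ Z) : ∃ Y ∈ Up F A, Y ⊆ Z := by
  obtain ⟨Y, hY, hmin⟩ := ((out F).filter (fun Y => A ⊂ Y ∧ Y ⊆ Z)).exists_min_image
    Finset.card ⟨Z, by simp [hZ, hAZ]⟩
  rw [mem_filter] at hY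
  refine ⟨Y, mem_Up.2 ⟨hY.1, hY.2.1, fun X hX hAX hXY => ?_⟩, hY.2.2⟩
  have := hmin X (mem_filter.2 ⟨hX, hAX, hXY.trans hY.2.2⟩)
  exact Finset.eq_of_subset_of_card_le hXY this

/-- The boundary pairs above `A` and above no cover of `A`. -/
def bdo (F : Finset (Finset V)) (A : Finset V) : Finset (Finset V × V) :=
  (bd (full F) A).filter (fun p => ∀ Z ∈ Up F A, ¬ Z ⊆ p.1)

lemma mem_bdo {A : Finset V} {p : Finset V × V} :
    p ∈ bdo F A ↔ p ∈ bd (full F) A ∧ ∀ Z ∈ Up F A, ¬ Z ⊆ p.1 := by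
  simp [bdo]

/-- The minimal nonempty members. -/
def mins (F : Finset (Finset V)) : Finset (Finset V) :=
  F.filter (fun A => A.Nonempty ∧ ∀ B ∈ F, B.Nonempty → B ⊆ A → B = A)

lemma mem_mins {A : Finset V} :
    A ∈ mins F ↔ A ∈ F ∧ A.Nonempty ∧ ∀ B ∈ F, B.Nonempty → B ⊆ A → B = A := by
  simp [mins]

lemma union_out (hunion : ∀ A ∈ F, ∀ B ∈ F, A ∪ B ∈ F) {A B C : Finset V} (hA : A ∈ out F)
    (hB : B ∈ out F) (hC : C ∉ full F) (hAC : A ⊆ C) (hBC : B ⊆ C) : A ∪ B ∈ out F := by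
  rw [mem_out] at hA hB ⊢
  exact ⟨hunion A hA.1 B hB.1, hA.2.1.mono subset_union_left,
    fun h => hC (full_up _ h C (union_subset hAC hBC))⟩

/-- The boundary pairs. -/
lemma boundary (hunion : ∀ A ∈ F, ∀ B ∈ F, A ∪ B ∈ F) (h0 : ∅ ∉ full F) :
    ∑ A ∈ out F, ((bdo F A).card : ℤ) + ∑ A ∈ mins F ∩ full F, (A.card : ℤ) ≤
      (bd (full F) ∅).card := by
  classical
  have hd1 : ((out F : Finset (Finset V)) : Set (Finset V)).PairwiseDisjoint (bdo F) := by
    have key : ∀ A ∈ out F, ∀ B ∈ out F, A ≠ B → A ≠ A ∪ B → ∀ p, p ∈ bdo F A → p ∈ bdo F B →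
        False := by
      intro A hA B hB _ hne p hp hp'
      rw [mem_bdo, mem_bd] at hp hp'
      have h1 := union_out hunion hA hB hp.1.2.1 hp.1.1 hp'.1.1
      obtain ⟨Y, hY, hYs⟩ := exists_Up h1 (Finset.ssubset_iff_subset_ne.2 ⟨subset_union_left, hne⟩)
      exact hp.2 Y hY (hYs.trans (union_subset hp.1.1 hp'.1.1))
    intro A hA B hB hne
    rw [Function.onFun, Finset.disjoint_left]
    intro p hp hp'
    by_cases h1 : A = A ∪ B
    · by_cases h2 : B = B ∪ A
      · rw [union_comm] at h2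
        exact hne (h1.trans h2.symm)
      · exact key B hB A hA hne.symm h2 p hp' hp
    · exact key A hA B hB hne h1 p hp hp'
  set G : Finset V → Finset (Finset V × V) := fun A => A.image (fun x => (A.erase x, x)) with hG
  have hGcard : ∀ A : Finset V, (G A).card = A.card := by
    intro A
    rw [hG]
    exact Finset.card_image_of_injOn fun x _ y _ h => (Prod.mk.injEq _ _ _ _ ▸ h : _ ∧ _).2
  have hGmem : ∀ (A : Finset V) (p : Finset V × V), p ∈ G A → insert p.2 p.1 = A ∧ p.1 ⊂ A ∧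
      p.2 ∉ p.1 := by
    intro A p hp
    rw [hG, mem_image] at hp
    obtain ⟨x, hx, rfl⟩ := hp
    exact ⟨insert_erase hx, erase_ssubset hx, notMem_erase _ _⟩
  have hd2 : ((mins F ∩ full F : Finset (Finset V)) : Set (Finset V)).PairwiseDisjoint G := by
    intro A _ B _ hne
    rw [Function.onFun, Finset.disjoint_left]
    intro p hp hp'
    exact hne ((hGmem A p hp).1.symm.trans (hGmem B p hp').1)
  have hno : ∀ A ∈ mins F ∩ full F, ∀ p ∈ G A, ∀ B ∈ F, B.Nonempty → ¬ B ⊆ p.1 := by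
    intro A hA p hp B hB hne hsub
    rw [mem_inter, mem_mins] at hA
    have h1 := (hGmem A p hp).2.1
    have h2 := hA.1.2.2 B hB hne (hsub.trans h1.1)
    rw [h2] at hsub
    exact h1.2 hsub
  have hd3 : Disjoint ((out F).biUnion (bdo F)) ((mins F ∩ full F).biUnion G) := by
    rw [Finset.disjoint_left]
    intro p hp hp'
    rw [mem_biUnion] at hp hp'
    obtain ⟨A, hA, hp⟩ := hp
    obtain ⟨C, hC, hp'⟩ := hp'
    rw [mem_bdo, mem_bd] at hp
    rw [mem_out] at hA
    exact hno C hC p hp' A hA.1 hA.2.1 hp.1.1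
  have hsub : (out F).biUnion (bdo F) ∪ (mins F ∩ full F).biUnion G ⊆ bd (full F) ∅ := by
    intro p hp
    rw [mem_union, mem_biUnion, mem_biUnion] at hp
    rcases hp with ⟨A, _, hp⟩ | ⟨C, hC, hp⟩
    · rw [mem_bdo, mem_bd] at hp
      exact mem_bd.2 ⟨empty_subset _, hp.1.2⟩
    · have h1 := hGmem C p hp
      refine mem_bd.2 ⟨empty_subset _, fun hf => ?_, h1.2.2, ?_⟩
      · rcases p.1.eq_empty_or_nonempty with he | hne
        · exact h0 (he ▸ hf)
        · exact hno C hC p hp p.1 (mem_full.1 hf p.1 Subset.rfl) hne Subset.rfl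
      · rw [h1.1]
        exact (mem_inter.1 hC).2
  have h1 := Finset.card_le_card hsub
  rw [card_union_of_disjoint hd3, card_biUnion hd1, card_biUnion hd2] at h1
  have h2 : ∑ A ∈ mins F ∩ full F, (G A).card = ∑ A ∈ mins F ∩ full F, A.card :=
    Finset.sum_congr rfl fun A _ => hGcard A
  rw [h2] at h1
  exact_mod_cast h1

/-- The complements in `Z` of the members covered by `Z` are disjoint. -/
lemma sum_Lo (hunion : ∀ A ∈ F, ∀ B ∈ F, A ∪ B ∈ F) {Z : Finset V} (hZ : Z ∈ out F) :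
    ∑ A ∈ Lo F Z, ((Z \ A).card : ℤ) ≤ Z.card := by
  classical
  have hd : ((Lo F Z : Finset (Finset V)) : Set (Finset V)).PairwiseDisjoint (fun A => Z \ A) := by
    intro A hA B hB hne
    rw [Function.onFun, Finset.disjoint_left]
    intro x hx hx'
    rw [mem_coe, mem_Lo] at hA hB
    have hA2 := mem_Up.1 hA.2
    have hB2 := mem_Up.1 hB.2
    have h1 := union_out hunion hA.1 hB.1 (mem_out.1 hZ).2.2 hA2.2.1.1 hB2.2.1.1
    have h2 : A ∪ B = Z := by
      by_cases h3 : A = A ∪ B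
      · exfalso
        have hBA : B ⊆ A := by rw [h3]; exact subset_union_right
        have h4 := hB2.2.2 A hA.1 (Finset.ssubset_iff_subset_ne.2 ⟨hBA, hne.symm⟩) hA2.2.1.1
        exact (Finset.ssubset_iff_subset_ne.1 hA2.2.1).2 h4
      · exact hA2.2.2 _ h1 (Finset.ssubset_iff_subset_ne.2 ⟨subset_union_left, h3⟩)
          (union_subset hA2.2.1.1 hB2.2.1.1)
    rw [mem_sdiff] at hx hx'
    rw [← h2, mem_union] at hx
    tauto
  have h1 : (Lo F Z).biUnion (fun A => Z \ A) ⊆ Z := by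
    intro x hx
    rw [mem_biUnion] at hx
    obtain ⟨A, _, hx⟩ := hx
    exact (mem_sdiff.1 hx).1
  have h2 := Finset.card_le_card h1
  rw [card_biUnion hd] at h2
  exact_mod_cast h2

/-- The inequality for a member outside the full part. -/
lemma local_ge {A : Finset V} (hA : A ∈ out F)
    (hI : (∃ W ∈ full F, A ⊆ W ∧ ∀ Z ∈ out F, A ⊂ Z → ¬ Z ⊆ W) ∨ ∀ x : V, ∃ Z ∈ Up F A, x ∈ Z) :
    (Fintype.card V : ℤ) - A.card ≤ (bdo F A).card + ∑ Z ∈ Up F A, ((Z \ A).card : ℤ) := by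
  classical
  rcases hI with ⟨W0, hW0⟩ | hcov
  · obtain ⟨W, hW, hmax⟩ := ((full F).filter (fun W => A ⊆ W ∧
      ∀ Z ∈ out F, A ⊂ Z → ¬ Z ⊆ W)).exists_max_image Finset.card ⟨W0, mem_filter.2 hW0⟩
    rw [mem_filter] at hW
    obtain ⟨hW1, hW2, hW3⟩ := hW
    have hx : ∀ x : V, ∃ C : Finset V, x ∉ W → C ∈ Up F A ∧ C ⊆ insert x W := by
      intro x
      by_cases hxW : x ∈ W
      · exact ⟨∅, fun h' => absurd hxW h'⟩
      · by_contra hcon
        push Not at hcon
        have h1 := hmax (insert x W) (mem_filter.2 ⟨full_up W hW1 _ (subset_insert _ _),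
          hW2.trans (subset_insert _ _), fun Z hZ hAZ hZW => by
            obtain ⟨Y, hY, hYZ⟩ := exists_Up hZ hAZ
            exact (hcon Y).2 hY (hYZ.trans hZW)⟩)
        rw [card_insert_of_notMem hxW] at h1
        omega
    choose f hf using hx
    have hinj : (Wᶜ).card ≤ (Up F A).card := by
      refine Finset.card_le_card_of_injOn f (fun x hx => ?_) ?_
      · rw [mem_coe, mem_compl] at hx
        exact (hf x hx).1
      · intro x hx y hy hxy
        rw [mem_coe, mem_compl] at hx hy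
        by_contra hne
        have h1 := hf x hx
        have h2 := hf y hy
        rw [← hxy] at h2
        have h1' := mem_Up.1 h1.1
        refine hW3 (f x) h1'.1 h1'.2.1 fun z hz => ?_
        have h3 := h1.2 hz
        have h4 := h2.2 hz
        rw [mem_insert] at h3 h4
        rcases h3 with h3 | h3
        · rcases h4 with h4 | h4
          · exact absurd (h3.symm.trans h4) hne
          · exact h4
        · exact h3
    have hS : ((Up F A).card : ℤ) ≤ ∑ C ∈ Up F A, ((C \ A).card : ℤ) := by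
      have h1 : ∑ C ∈ Up F A, (1 : ℤ) ≤ ∑ C ∈ Up F A, ((C \ A).card : ℤ) := by
        refine Finset.sum_le_sum fun C hC => ?_
        have h2 : 0 < (C \ A).card := by
          rw [Finset.card_pos, sdiff_nonempty]
          exact (mem_Up.1 hC).2.1.2
        exact_mod_cast h2
      rwa [sum_const, nsmul_eq_mul, mul_one] at h1
    have hB : (W \ A).card ≤ (bdo F A).card := by
      refine (bd_ge_in full_up hW2 hW1 (mem_out.1 hA).2.2).trans (Finset.card_le_card ?_)
      intro p hp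
      rw [mem_filter] at hp
      rw [mem_bdo]
      refine ⟨hp.1, fun C hC hCp => ?_⟩
      have hC' := mem_Up.1 hC
      exact hW3 C hC'.1 hC'.2.1 (hCp.trans ((subset_insert _ _).trans hp.2))
    rw [card_sdiff_of_subset hW2] at hB
    rw [card_compl] at hinj
    have h5 := Finset.card_le_univ W
    have h6 := Finset.card_le_card hW2
    omega
  · have h1 : univ \ A ⊆ (Up F A).biUnion (fun Z => Z \ A) := by
      intro x hx
      rw [mem_sdiff] at hx
      obtain ⟨Z, hZ, hxZ⟩ := hcov x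
      exact mem_biUnion.2 ⟨Z, hZ, mem_sdiff.2 ⟨hxZ, hx.2⟩⟩
    have h2 := (Finset.card_le_card h1).trans Finset.card_biUnion_le
    have h3 : ((∑ C ∈ Up F A, (C \ A).card : ℕ) : ℤ) = ∑ C ∈ Up F A, ((C \ A).card : ℤ) := by
      push_cast; rfl
    rw [← h3]
    rw [card_sdiff_of_subset (subset_univ _), card_univ] at h2
    omega

/-- **The averaging theorem.** -/
theorem average (hunion : ∀ A ∈ F, ∀ B ∈ F, A ∪ B ∈ F) (h0 : ∅ ∉ full F)
    (hloc : ∀ A ∈ out F,
      (Fintype.card V : ℤ) - A.card ≤ (bdo F A).card + ∑ Z ∈ Up F A, ((Z \ A).card : ℤ)) :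
    ∑ A ∈ mins F, (A.card : ℤ) ≤ ∑ A ∈ F.erase ∅, (2 * (A.card : ℤ) - Fintype.card V) := by
  classical
  have hHF : full F ⊆ F.erase ∅ := fun A hA =>
    mem_erase.2 ⟨fun h' => h0 (h' ▸ hA), mem_full.1 hA A Subset.rfl⟩
  have hF : ∑ A ∈ F.erase ∅, (2 * (A.card : ℤ) - Fintype.card V) =
      ∑ A ∈ out F, (2 * (A.card : ℤ) - Fintype.card V) +
      ∑ A ∈ full F, (2 * (A.card : ℤ) - Fintype.card V) := (Finset.sum_sdiff hHF).symm
  rw [hF, sum_upset full_up]
  have hb := boundary hunion h0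
  -- the double sum
  have hswap : ∑ Z ∈ out F, ∑ A ∈ Lo F Z, ((Z \ A).card : ℤ) =
      ∑ A ∈ out F, ∑ Z ∈ Up F A, ((Z \ A).card : ℤ) := by
    refine Finset.sum_comm' fun Z A => ?_
    rw [mem_Lo]
    constructor
    · rintro ⟨_, h2, h3⟩
      exact ⟨h3, h2⟩
    · rintro ⟨h1, h2⟩
      exact ⟨(mem_Up.1 h1).1, h2, h1⟩
  have h1 : ∑ A ∈ out F, ((Fintype.card V : ℤ) - A.card) ≤
      ∑ A ∈ out F, ((bdo F A).card : ℤ) + ∑ A ∈ out F, ∑ Z ∈ Up F A, ((Z \ A).card : ℤ) := by
    rw [← sum_add_distrib]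
    exact Finset.sum_le_sum hloc
  -- the members outside the full part which are minimal cover nothing
  have h2 : ∑ Z ∈ out F, ∑ A ∈ Lo F Z, ((Z \ A).card : ℤ) ≤
      ∑ Z ∈ out F, (Z.card : ℤ) - ∑ Z ∈ mins F \ full F, (Z.card : ℤ) := by
    have hsub : mins F \ full F ⊆ out F := by
      intro Z hZ
      rw [mem_sdiff, mem_mins] at hZ
      exact mem_out.2 ⟨hZ.1.1, hZ.1.2.1, hZ.2⟩
    rw [← Finset.sum_sdiff hsub, ← Finset.sum_sdiff hsub (f := fun Z => (Z.card : ℤ)),
      add_sub_cancel_right]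
    have h3 : ∑ Z ∈ mins F \ full F, ∑ A ∈ Lo F Z, ((Z \ A).card : ℤ) = 0 := by
      refine Finset.sum_eq_zero fun Z hZ => ?_
      have h4 : Lo F Z = ∅ := by
        rw [Finset.eq_empty_iff_forall_notMem]
        intro A hA
        rw [mem_Lo] at hA
        rw [mem_sdiff, mem_mins] at hZ
        have h5 := (mem_Up.1 hA.2).2.1
        have h6 := mem_out.1 hA.1
        exact (Finset.ssubset_iff_subset_ne.1 h5).2 (hZ.1.2.2 A h6.1 h6.2.1 h5.1)
      rw [h4, sum_empty]
    rw [h3, add_zero]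
    refine Finset.sum_le_sum fun Z hZ => ?_
    exact sum_Lo hunion (mem_sdiff.1 hZ).1
  have h3 : ∑ A ∈ mins F, (A.card : ℤ) = ∑ A ∈ mins F \ full F, (A.card : ℤ) +
      ∑ A ∈ mins F ∩ full F, (A.card : ℤ) := by
    rw [← Finset.sum_union (Finset.disjoint_left.2 fun x hx hx' =>
      (mem_sdiff.1 hx).2 (mem_inter.1 hx').2), Finset.sdiff_union_inter]
  have h4 : ∑ A ∈ out F, (2 * (A.card : ℤ) - Fintype.card V) =
      ∑ A ∈ out F, (A.card : ℤ) - ∑ A ∈ out F, ((Fintype.card V : ℤ) - A.card) := by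
    rw [← sum_sub_distrib]
    exact Finset.sum_congr rfl fun A _ => by ring
  rw [h3, h4]
  linarith

end Pool.Agent.R102.TypeOne
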