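import Mathlib
import Pool.Agent.R102.TypeOne

set_option autoImplicit false

/-!
# Families in which the nonempty members contained in a nonmember form a chain
-/

namespace Pool.Agent.R102.Nested

open Finset Pool.Agent.R102.TwoDense Pool.Agent.R102.ChainTwo Pool.Agent.R102.TypeOne

variable {V : Type*} [Fintype V] [DecidableEq V]

/-- The union of two incomparable nonempty members generates an up-set of members. -/
def Nest (F : Finset (Finset V)) : Prop :=
  ∀ X ∈ F, ∀ Y ∈ F, X.Nonempty → Y.Nonempty → ¬ X ⊆ Y → ¬ Y ⊆ X → ∀ C, X ∪ Y ⊆ C → C ∈ F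

variable {F : Finset (Finset V)}

lemma Nest.full (h : Nest F) {X Y : Finset V} (hX : X ∈ out F) (hY : Y ∈ out F)
    (hXY : ¬ X ⊆ Y) (hYX : ¬ Y ⊆ X) : X ∪ Y ∈ full F := by
  rw [mem_out] at hX hY
  exact mem_full.2 (h X hX.1 Y hY.1 hX.2.1 hY.2.1 hXY hYX)

lemma Up_not_subset {Y C C' : Finset V} (hC : C ∈ Up F Y) (hC' : C' ∈ Up F Y) (hne : C ≠ C') :
    ¬ C ⊆ C' := by
  intro hsub
  exact hne ((mem_Up.1 hC').2.2 C (mem_Up.1 hC).1 (mem_Up.1 hC).2.1 hsub)

lemma Nest.union_Up (h : Nest F) {Y C C' : Finset V} (hC : C ∈ Up F Y) (hC' : C' ∈ Up F Y)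
    (hne : C ≠ C') : C ∪ C' ∈ ChainTwo.full F :=
  h.full (mem_Up.1 hC).1 (mem_Up.1 hC').1 (Up_not_subset hC hC' hne)
    (Up_not_subset hC' hC hne.symm)

/-- The members of `out F` containing `Y`. -/
def Ab (F : Finset (Finset V)) (Y : Finset V) : Finset (Finset V) := (out F).filter (fun Z => Y ⊆ Z)

lemma mem_Ab {Y Z : Finset V} : Z ∈ Ab F Y ↔ Z ∈ out F ∧ Y ⊆ Z := by simp [Ab]

/-- The surplus above `Y`. -/
def S (F : Finset (Finset V)) (Y : Finset V) : ℤ :=
  (bd (ChainTwo.full F) Y).card - ∑ Z ∈ Ab F Y, ((Fintype.card V : ℤ) - 2 * Z.card)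

/-- Summation over the members of `out F` properly containing `Y`. -/
lemma Nest.sum_above (h : Nest F) (Y : Finset V) (f : Finset V → ℤ) :
    ∑ Z ∈ (out F).filter (fun Z => Y ⊂ Z), f Z = ∑ C ∈ Up F Y, ∑ Z ∈ Ab F C, f Z := by
  classical
  have hd : ((Up F Y : Finset (Finset V)) : Set (Finset V)).PairwiseDisjoint (Ab F) := by
    intro C hC C' hC' hne
    rw [Function.onFun, Finset.disjoint_left]
    intro Z hZ hZ'
    rw [mem_Ab] at hZ hZ'
    have h1 := full_up _ (h.union_Up hC hC' hne) _ (union_subset hZ.2 hZ'.2)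
    exact (mem_out.1 hZ.1).2.2 h1
  rw [← Finset.sum_biUnion hd]
  refine Finset.sum_congr ?_ fun _ _ => rfl
  ext Z
  rw [mem_filter, mem_biUnion]
  constructor
  · rintro ⟨hZ, hYZ⟩
    obtain ⟨C, hC, hCZ⟩ := exists_Up hZ hYZ
    exact ⟨C, hC, mem_Ab.2 ⟨hZ, hCZ⟩⟩
  · rintro ⟨C, hC, hZ⟩
    rw [mem_Ab] at hZ
    exact ⟨hZ.1, (mem_Up.1 hC).2.1.trans_subset hZ.2⟩

/-- The boundary pairs above the covers. -/
lemma Nest.bd_above (h : Nest F) (Y : Finset V) :
    ((bdo F Y).card : ℤ) + ∑ C ∈ Up F Y, ((bd (ChainTwo.full F) C).card : ℤ) ≤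
      (bd (ChainTwo.full F) Y).card := by
  classical
  have hd : ((Up F Y : Finset (Finset V)) : Set (Finset V)).PairwiseDisjoint
      (bd (ChainTwo.full F)) := by
    intro C hC C' hC' hne
    rw [Function.onFun, Finset.disjoint_left]
    intro p hp hp'
    rw [mem_bd] at hp hp'
    exact hp.2.1 (full_up _ (h.union_Up hC hC' hne) _ (union_subset hp.1 hp'.1))
  have hd2 : Disjoint (bdo F Y) ((Up F Y).biUnion (bd (ChainTwo.full F))) := by
    rw [Finset.disjoint_left]
    intro p hp hp'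
    rw [mem_biUnion] at hp'
    obtain ⟨C, hC, hp'⟩ := hp'
    rw [mem_bd] at hp'
    exact (mem_bdo.1 hp).2 C hC hp'.1
  have hsub : bdo F Y ∪ (Up F Y).biUnion (bd (ChainTwo.full F)) ⊆ bd (ChainTwo.full F) Y := by
    intro p hp
    rw [mem_union, mem_biUnion] at hp
    rcases hp with hp | ⟨C, hC, hp⟩
    · exact (mem_bdo.1 hp).1
    · rw [mem_bd] at hp
      exact mem_bd.2 ⟨(mem_Up.1 hC).2.1.1.trans hp.1, hp.2⟩
  have h1 := Finset.card_le_card hsub
  rw [card_union_of_disjoint hd2, card_biUnion hd] at h1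
  exact_mod_cast h1

lemma Nest.S_step (h : Nest F) {Y : Finset V} (hY : Y ∈ out F) :
    ((bdo F Y).card : ℤ) - (Fintype.card V - 2 * Y.card) + ∑ C ∈ Up F Y, S F C ≤ S F Y := by
  classical
  have h1 := h.bd_above Y
  have h2 := h.sum_above Y (fun Z => (Fintype.card V : ℤ) - 2 * Z.card)
  have h3 : Ab F Y = insert Y ((out F).filter (fun Z => Y ⊂ Z)) := by
    ext Z
    rw [mem_Ab, mem_insert, mem_filter]
    constructor
    · rintro ⟨hZ, hYZ⟩
      by_cases he : Z = Y
      · exact Or.inl he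
      · exact Or.inr ⟨hZ, Finset.ssubset_iff_subset_ne.2 ⟨hYZ, fun h' => he h'.symm⟩⟩
    · rintro (rfl | ⟨hZ, hYZ⟩)
      · exact ⟨hY, Subset.rfl⟩
      · exact ⟨hZ, hYZ.1⟩
  have h4 : Y ∉ (out F).filter (fun Z => Y ⊂ Z) := by
    intro h'
    exact (mem_filter.1 h').2.2 Subset.rfl
  unfold S
  rw [sum_sub_distrib, h3, sum_insert h4, h2]
  linarith

lemma Nest.card_step (h : Nest F) {Y : Finset V} (hY : Y ∈ out F) :
    ((Ab F Y).card : ℤ) = 1 + ∑ C ∈ Up F Y, ((Ab F C).card : ℤ) := by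
  classical
  have h2 := h.sum_above Y (fun _ => 1)
  have h3 : Ab F Y = insert Y ((out F).filter (fun Z => Y ⊂ Z)) := by
    ext Z
    rw [mem_Ab, mem_insert, mem_filter]
    constructor
    · rintro ⟨hZ, hYZ⟩
      by_cases he : Z = Y
      · exact Or.inl he
      · exact Or.inr ⟨hZ, Finset.ssubset_iff_subset_ne.2 ⟨hYZ, fun h' => he h'.symm⟩⟩
    · rintro (rfl | ⟨hZ, hYZ⟩)
      · exact ⟨hY, Subset.rfl⟩
      · exact ⟨hZ, hYZ.1⟩
  have h4 : Y ∉ (out F).filter (fun Z => Y ⊂ Z) := by
    intro h'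
    exact (mem_filter.1 h').2.2 Subset.rfl
  simp only [sum_const, nsmul_eq_mul, mul_one] at h2
  rw [h3, card_insert_of_notMem h4]
  push_cast
  linarith

/-- The members with no type I set: bounds for the covers. -/
lemma Nest.typeII (h : Nest F) {Y : Finset V}
    (hII : ∀ W ∈ ChainTwo.full F, Y ⊆ W → ∃ C ∈ Up F Y, C ⊆ W) (ht : 2 ≤ (Up F Y).card) :
    ∃ u : ℕ, (Fintype.card V : ℤ) - Y.card - u ≤ ∑ C ∈ Up F Y, ((C \ Y).card : ℤ) ∧
      ∀ C ∈ Up F Y, ∃ κ r : ℕ, κ ≤ (bdo F Y).card ∧ 1 ≤ r ∧ κ < 2 ^ u ∧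
        Fintype.card V = C.card + u + r ∧
        ((2 : ℤ) ^ u - κ) * r ≤ (bd (ChainTwo.full F) C).card := by
  classical
  set P : Finset V := (Up F Y).biUnion id with hP
  set U : Finset V := Pᶜ with hU
  have hCU : ∀ C ∈ Up F Y, ∀ x ∈ C, x ∉ U := by
    intro C hC x hx hxU
    rw [hU, mem_compl, hP, mem_biUnion] at hxU
    exact hxU ⟨C, hC, hx⟩
  have hUcard : (U.card : ℤ) = Fintype.card V - P.card := by
    rw [hU, card_compl, Nat.cast_sub (Finset.card_le_univ _)]
  have h1 : (P.card : ℤ) - Y.card ≤ ∑ C ∈ Up F Y, ((C \ Y).card : ℤ) := by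
    have h2 : P \ Y ⊆ (Up F Y).biUnion (fun C => C \ Y) := by
      intro x hx
      rw [mem_sdiff, hP, mem_biUnion] at hx
      obtain ⟨⟨C, hC, hxC⟩, hxA⟩ := hx
      exact mem_biUnion.2 ⟨C, hC, mem_sdiff.2 ⟨hxC, hxA⟩⟩
    have h3 := (Finset.card_le_card h2).trans Finset.card_biUnion_le
    have h4 := Finset.le_card_sdiff Y P
    have h5 : ((∑ C ∈ Up F Y, (C \ Y).card : ℕ) : ℤ) = ∑ C ∈ Up F Y, ((C \ Y).card : ℤ) := by
      push_cast; rfl
    rw [← h5]
    omega
  refine ⟨U.card, by linarith, ?_⟩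
  intro C hC
  have hYC : Y ⊂ C := (mem_Up.1 hC).2.1
  have hCo : C ∈ out F := (mem_Up.1 hC).1
  have hanti : ∀ C' ∈ Up F Y, C' ⊆ C → C' = C := by
    intro C' hC' hsub
    by_contra hne
    exact Up_not_subset hC' hC hne hsub
  have hdU : ∀ C' ∈ Up F Y, ∀ S ⊆ U, C' ⊆ C ∪ S → C' = C := by
    intro C' hC' S hS hsub
    refine hanti C' hC' fun x hx => ?_
    rcases mem_union.1 (hsub hx) with h3 | h3
    · exact h3
    · exact absurd (hS h3) (hCU C' hC' x hx)
  obtain ⟨x0, hx0C, hx0Y⟩ : ∃ x ∈ C, x ∉ Y := by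
    by_contra hcon
    push Not at hcon
    exact hYC.2 hcon
  have hkap : ((U.powerset).filter (fun S => C ∪ S ∈ ChainTwo.full F)).card ≤ (bdo F Y).card := by
    refine Finset.card_le_card_of_injOn (fun S => ((C ∪ S).erase x0, x0)) ?_ ?_
    · intro S hS
      rw [mem_coe, mem_filter, mem_powerset] at hS
      rw [mem_coe, mem_bdo, mem_bd]
      have hno : ∀ C' ∈ Up F Y, ¬ C' ⊆ (C ∪ S).erase x0 := by
        intro C' hC' hsub
        have h3 := hdU C' hC' S hS.1 (hsub.trans (erase_subset _ _))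
        rw [h3] at hsub
        exact notMem_erase x0 _ (hsub hx0C)
      have hAs : Y ⊆ (C ∪ S).erase x0 := by
        intro a ha'
        exact mem_erase.2 ⟨fun h' => hx0Y (h' ▸ ha'), mem_union_left _ (hYC.1 ha')⟩
      refine ⟨⟨hAs, ?_, notMem_erase _ _, ?_⟩, hno⟩
      · intro hf
        obtain ⟨C', hC', hsub⟩ := hII _ hf hAs
        exact hno C' hC' hsub
      · rw [insert_erase (mem_union_left _ hx0C)]
        exact hS.2
    · intro S hS S' hS' hSS
      rw [mem_coe, mem_filter, mem_powerset] at hS hS'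
      simp only [Prod.mk.injEq, and_true] at hSS
      have h3 : C ∪ S = C ∪ S' := by
        rw [← insert_erase (mem_union_left S hx0C : x0 ∈ C ∪ S), hSS,
          insert_erase (mem_union_left S' hx0C)]
      ext x
      constructor
      · intro hx
        have h4 : x ∈ C ∪ S' := h3 ▸ mem_union_right _ hx
        rcases mem_union.1 h4 with h5 | h5
        · exact absurd (hS.1 hx) (hCU C hC x h5)
        · exact h5
      · intro hx
        have h4 : x ∈ C ∪ S := h3 ▸ mem_union_right _ hx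
        rcases mem_union.1 h4 with h5 | h5
        · exact absurd (hS'.1 hx) (hCU C hC x h5)
        · exact h5
  obtain ⟨C', hC', hne⟩ : ∃ C' ∈ Up F Y, C' ≠ C := by
    by_contra hcon
    push Not at hcon
    have h3 : Up F Y ⊆ {C} := fun C' hC' => mem_singleton.2 (hcon C' hC')
    have := Finset.card_le_card h3
    rw [card_singleton] at this
    omega
  set R : Finset V := (C ∪ U)ᶜ with hR
  have hCR : ∀ x ∈ R, x ∉ C ∧ x ∉ U := by
    intro x hx
    rw [hR, mem_compl, mem_union] at hx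
    tauto
  have hC'sub : C' ⊆ C ∪ R := by
    intro x hx
    by_cases hxC : x ∈ C
    · exact mem_union_left _ hxC
    · refine mem_union_right _ ?_
      rw [hR, mem_compl, mem_union]
      rintro (h3 | h3)
      · exact hxC h3
      · exact hCU C' hC' x hx h3
  have hfull : C ∪ C' ∈ ChainTwo.full F := h.union_Up hC hC' hne.symm
  have hRpos : 1 ≤ R.card := by
    rw [Nat.one_le_iff_ne_zero, Ne, card_eq_zero]
    intro h3
    rw [h3, union_empty] at hC'sub
    exact hne (hanti C' hC' hC'sub)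
  have hn : Fintype.card V = C.card + U.card + R.card := by
    have h3 : Disjoint C U := Finset.disjoint_left.2 fun x hx hxU => hCU C hC x hx hxU
    have h4 : R.card = Fintype.card V - (C ∪ U).card := card_compl _
    have h5 := Finset.card_le_univ (C ∪ U)
    have h6 : (C ∪ U).card = C.card + U.card := card_union_of_disjoint h3
    omega
  have hbig : ((U.powerset).filter (fun S => C ∪ S ∉ ChainTwo.full F)).card * R.card ≤
      (bd (ChainTwo.full F) C).card := by
    set G : Finset V → Finset (Finset V × V) := fun S =>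
      (bd (ChainTwo.full F) (C ∪ S)).filter (fun p => insert p.2 p.1 ⊆ C ∪ S ∪ R) with hG
    have hcard : ∀ S ∈ (U.powerset).filter (fun S => C ∪ S ∉ ChainTwo.full F),
        R.card ≤ (G S).card := by
      intro S hS
      rw [mem_filter, mem_powerset] at hS
      have hW : C ∪ S ∪ R ∈ ChainTwo.full F := by
        refine full_up _ hfull _ (union_subset ?_ ?_)
        · exact subset_union_left.trans subset_union_left
        · exact hC'sub.trans (union_subset_union_left subset_union_left)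
      have h3 := bd_ge_in full_up (subset_union_left : C ∪ S ⊆ C ∪ S ∪ R) hW hS.2
      refine le_trans (le_of_eq ?_) h3
      congr 1
      rw [union_sdiff_left]
      refine (sdiff_eq_self_of_disjoint ?_).symm
      rw [Finset.disjoint_left]
      intro x hx hx'
      rcases mem_union.1 hx' with h4 | h4
      · exact (hCR x hx).1 h4
      · exact (hCR x hx).2 (hS.1 h4)
    have hdisj : (((U.powerset).filter (fun S => C ∪ S ∉ ChainTwo.full F) : Finset (Finset V)) :
        Set (Finset V)).PairwiseDisjoint G := by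
      intro S hS S' hS' hne'
      rw [mem_coe, mem_filter, mem_powerset] at hS hS'
      rw [Function.onFun, Finset.disjoint_left]
      intro p hp hp'
      rw [hG, mem_filter, mem_bd] at hp hp'
      apply hne'
      have key : ∀ S ⊆ U, C ∪ S ⊆ p.1 → insert p.2 p.1 ⊆ C ∪ S ∪ R → p.1 ∩ U = S := by
        intro S hS h3 h4
        ext x
        rw [mem_inter]
        constructor
        · rintro ⟨h5, h6⟩
          have h7 := h4 (mem_insert_of_mem h5)
          rw [mem_union, mem_union] at h7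
          rcases h7 with (h7 | h7) | h7
          · exact absurd h6 (hCU C hC x h7)
          · exact h7
          · exact absurd h6 (hCR x h7).2
        · intro h5
          exact ⟨h3 (mem_union_right _ h5), hS h5⟩
      rw [← key S hS.1 hp.1.1 hp.2, key S' hS'.1 hp'.1.1 hp'.2]
    have hsub : ((U.powerset).filter (fun S => C ∪ S ∉ ChainTwo.full F)).biUnion G ⊆
        bd (ChainTwo.full F) C := by
      intro p hp
      rw [mem_biUnion] at hp
      obtain ⟨S, _, hp⟩ := hp
      rw [hG, mem_filter, mem_bd] at hp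
      exact mem_bd.2 ⟨subset_union_left.trans hp.1.1, hp.1.2⟩
    have h3 := Finset.card_le_card hsub
    rw [card_biUnion hdisj] at h3
    refine le_trans ?_ h3
    rw [← smul_eq_mul]
    exact Finset.card_nsmul_le_sum _ _ _ hcard
  have hsum : ((U.powerset).filter (fun S => C ∪ S ∈ ChainTwo.full F)).card +
      ((U.powerset).filter (fun S => C ∪ S ∉ ChainTwo.full F)).card = 2 ^ U.card := by
    rw [Finset.card_filter_add_card_filter_not, card_powerset]
  have hpos : 0 < ((U.powerset).filter (fun S => C ∪ S ∉ ChainTwo.full F)).card := by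
    refine Finset.card_pos.2 ⟨∅, ?_⟩
    rw [mem_filter, mem_powerset, union_empty]
    exact ⟨empty_subset _, (mem_out.1 hCo).2.2⟩
  refine ⟨_, R.card, hkap, hRpos, by omega, hn, ?_⟩
  have hsum' : (((U.powerset).filter (fun S => C ∪ S ∈ ChainTwo.full F)).card : ℤ) +
      ((U.powerset).filter (fun S => C ∪ S ∉ ChainTwo.full F)).card = 2 ^ U.card := by
    exact_mod_cast hsum
  have hbig' : (((U.powerset).filter (fun S => C ∪ S ∉ ChainTwo.full F)).card : ℤ) * R.card ≤
      (bd (ChainTwo.full F) C).card := by exact_mod_cast hbig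
  rw [← hsum', add_sub_cancel_left]
  exact hbig'

/-- The numerical inequality. -/
lemma num (a q κ r u : ℕ) (ha : 1 ≤ a) (hr : 1 ≤ r) (hu : a + q + κ + 1 ≤ u) :
    (u : ℤ) - κ ≤ 2 * (((2 : ℤ) ^ u - κ - 1) * r - u - q * (u + r - a - 2)) + a - a * q := by
  have hP : 2 * (u : ℤ) ^ 2 - 4 * u + 7 ≤ 2 * 2 ^ u := by
    have h2 : 2 ≤ u := by omega
    clear hu
    induction u, h2 using Nat.le_induction with
    | base => norm_num
    | succ k hk ih =>
      have h5 : (2 : ℤ) ^ (k + 1) = 2 * 2 ^ k := by ring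
      rw [h5]
      push_cast
      nlinarith [sq_nonneg ((k : ℤ) - 2)]
  obtain ⟨a', rfl⟩ : ∃ a', a = a' + 1 := ⟨a - 1, by omega⟩
  obtain ⟨r', rfl⟩ : ∃ r', r = r' + 1 := ⟨r - 1, by omega⟩
  obtain ⟨s, rfl⟩ : ∃ s, u = a' + 1 + q + κ + 1 + s := ⟨u - (a' + 1 + q + κ + 1), by omega⟩
  set P : ℤ := 2 ^ (a' + 1 + q + κ + 1 + s) with hPdef
  have h1 : (0 : ℤ) ≤ P - κ - 1 - q := by
    have : ((a' + 1 + q + κ + 1 + s : ℕ) : ℤ) < P := by
      rw [hPdef]
      exact_mod_cast Nat.lt_two_pow_self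
    push_cast at this
    linarith
  push_cast at hP ⊢
  have h2 : (0 : ℤ) ≤ (P - κ - 1 - q) * r' := mul_nonneg h1 (by positivity)
  have e1 : (0 : ℤ) ≤ q * κ := by positivity
  have e2 : (0 : ℤ) ≤ q * a' := by positivity
  have e3 : (0 : ℤ) ≤ q * s := by positivity
  have e4 : (0 : ℤ) ≤ κ * a' := by positivity
  have e5 : (0 : ℤ) ≤ κ * s := by positivity
  have e6 : (0 : ℤ) ≤ a' * s := by positivity
  have e7 : (0 : ℤ) ≤ (κ : ℤ) * κ := by positivity
  have e8 : (0 : ℤ) ≤ (a' : ℤ) * a' := by positivity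
  have e9 : (0 : ℤ) ≤ (s : ℤ) * s := by positivity
  have e10 : (0 : ℤ) ≤ (q : ℤ) * q := by positivity
  have f1 : (0 : ℤ) ≤ (q : ℤ) := by positivity
  have f2 : (0 : ℤ) ≤ (κ : ℤ) := by positivity
  have f3 : (0 : ℤ) ≤ (a' : ℤ) := by positivity
  have f4 : (0 : ℤ) ≤ (s : ℤ) := by positivity
  nlinarith

/-- **The main induction.** -/
theorem Nest.main (h : Nest F)
    (ht : ∀ Y ∈ out F, (∀ W ∈ ChainTwo.full F, Y ⊆ W → ∃ C ∈ Up F Y, C ⊆ W) →
      2 ≤ (Up F Y).card) :
    ∀ (m : ℕ) (Y : Finset V), Y ∈ out F → (Ab F Y).card = m →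
      (Y.card : ℤ) * ((Ab F Y).card - 1) ≤ 2 * (S F Y - Y.card) := by
  classical
  intro m
  induction m using Nat.strong_induction_on with
  | _ m ih =>
    intro Y hY hm
    have hYpos : 1 ≤ Y.card := (mem_out.1 hY).2.1.card_pos
    have hstep := h.S_step hY
    have hcard := h.card_step hY
    have hIH : ∀ C ∈ Up F Y, (C.card : ℤ) * ((Ab F C).card - 1) ≤ 2 * (S F C - C.card) := by
      intro C hC
      have hC' := mem_Up.1 hC
      refine ih (Ab F C).card ?_ C hC'.1 rfl
      rw [← hm]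
      refine Finset.card_lt_card (Finset.ssubset_iff_subset_ne.2 ⟨?_, ?_⟩)
      · intro Z hZ
        rw [mem_Ab] at hZ ⊢
        exact ⟨hZ.1, hC'.2.1.1.trans hZ.2⟩
      · intro he
        have h1 : Y ∈ Ab F C := he ▸ mem_Ab.2 ⟨hY, Subset.rfl⟩
        exact hC'.2.1.2 (mem_Ab.1 h1).2
    have hC1 : ∀ C ∈ Up F Y, (1 : ℤ) ≤ (Ab F C).card := by
      intro C hC
      have h1 : 0 < (Ab F C).card := Finset.card_pos.2 ⟨C, mem_Ab.2 ⟨(mem_Up.1 hC).1, Subset.rfl⟩⟩
      exact_mod_cast h1
    have hCc : ∀ C ∈ Up F Y, (C.card : ℤ) = Y.card + (C \ Y).card := by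
      intro C hC
      have h1 := Finset.card_sdiff_add_card_eq_card (mem_Up.1 hC).2.1.1
      rw [← h1]
      push_cast
      ring
    have hCY : ∀ C ∈ Up F Y, (Y.card : ℤ) + 1 ≤ C.card := by
      intro C hC
      have h1 := Finset.card_lt_card (mem_Up.1 hC).2.1
      exact_mod_cast h1
    have hY1 : (1 : ℤ) ≤ Y.card := by exact_mod_cast hYpos
    -- the reduction to the covers
    have hred : ∀ e : ℤ, (Fintype.card V : ℤ) - Y.card - e ≤
        (bdo F Y).card + ∑ C ∈ Up F Y, ((C \ Y).card : ℤ) →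
        2 * e ≤ ∑ C ∈ Up F Y, (2 * (S F C - C.card) + Y.card - Y.card * ((Ab F C).card - 1)) →
        (Y.card : ℤ) * ((Ab F Y).card - 1) ≤ 2 * (S F Y - Y.card) := by
      intro e he1 he2
      have e1 : ∑ C ∈ Up F Y, (2 * (S F C - C.card) + Y.card - Y.card * ((Ab F C).card - 1)) =
          2 * ∑ C ∈ Up F Y, S F C - 2 * ∑ C ∈ Up F Y, ((C \ Y).card : ℤ) -
            Y.card * ∑ C ∈ Up F Y, ((Ab F C).card : ℤ) := by
        rw [mul_sum, mul_sum, mul_sum, ← sum_sub_distrib, ← sum_sub_distrib]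
        refine Finset.sum_congr rfl fun C hC => ?_
        rw [hCc C hC]
        ring
      rw [e1] at he2
      have e2 : (Y.card : ℤ) * ((Ab F Y).card - 1) =
          Y.card * ∑ C ∈ Up F Y, ((Ab F C).card : ℤ) := by rw [hcard]; ring
      rw [e2]
      linarith
    by_cases hI : ∃ W ∈ ChainTwo.full F, Y ⊆ W ∧ ∀ Z ∈ out F, Y ⊂ Z → ¬ Z ⊆ W
    · refine hred 0 (by linarith [local_ge hY (Or.inl hI)]) ?_
      rw [mul_zero]
      refine Finset.sum_nonneg fun C hC => ?_
      have h1 := hIH C hC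
      have h2 := hC1 C hC
      have h3 := hCY C hC
      nlinarith
    · have hII : ∀ W ∈ ChainTwo.full F, Y ⊆ W → ∃ C ∈ Up F Y, C ⊆ W := by
        intro W hW hYW
        by_contra hcon
        push Not at hcon
        refine hI ⟨W, hW, hYW, fun Z hZ hYZ hZW => ?_⟩
        obtain ⟨C, hC, hCZ⟩ := exists_Up hZ hYZ
        exact hcon C hC (hCZ.trans hZW)
      have ht2 := ht Y hY hII
      obtain ⟨u, hu, hcov⟩ := h.typeII hII ht2
      set b : ℤ := ((bdo F Y).card : ℤ) with hb
      refine hred (u - b) (by linarith) ?_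
      have hterm : ∀ C ∈ Up F Y, max 0 ((u : ℤ) - b) ≤
          2 * (S F C - C.card) + Y.card - Y.card * ((Ab F C).card - 1) := by
        intro C hC
        have h1 := hIH C hC
        have h2 := hC1 C hC
        have h3 := hCY C hC
        have h0 : (0 : ℤ) ≤ 2 * (S F C - C.card) + Y.card - Y.card * ((Ab F C).card - 1) := by
          nlinarith
        refine max_le h0 ?_
        obtain ⟨κ, r, hκ, hr, hκu, hn, hbd⟩ := hcov C hC
        obtain ⟨q, hq⟩ : ∃ q : ℕ, (Ab F C).card = q + 1 :=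
          ⟨(Ab F C).card - 1, by have : 1 ≤ (Ab F C).card := by exact_mod_cast h2
                                 omega⟩
        rw [hq] at h1 h2 ⊢
        push_cast at h1 ⊢
        have hκ' : (κ : ℤ) ≤ b := by rw [hb]; exact_mod_cast hκ
        by_cases hsmall : Y.card + q + κ + 1 ≤ u
        · -- the subtree is small
          have hS : ((2 : ℤ) ^ u - κ) * r - (Fintype.card V - 2 * C.card) -
              q * (u + r - Y.card - 2) ≤ S F C := by
            have hAb : ∑ Z ∈ Ab F C, ((Fintype.card V : ℤ) - 2 * Z.card) ≤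
                (Fintype.card V - 2 * C.card) + q * (u + r - Y.card - 2) := by
              have hCin : C ∈ Ab F C := mem_Ab.2 ⟨(mem_Up.1 hC).1, Subset.rfl⟩
              rw [← Finset.add_sum_erase _ _ hCin]
              have h5 : ∑ Z ∈ (Ab F C).erase C, ((Fintype.card V : ℤ) - 2 * Z.card) ≤
                  ∑ _Z ∈ (Ab F C).erase C, ((u : ℤ) + r - Y.card - 2) := by
                refine Finset.sum_le_sum fun Z hZ => ?_
                rw [mem_erase, mem_Ab] at hZ
                have h6 : C.card < Z.card := Finset.card_lt_card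
                  (Finset.ssubset_iff_subset_ne.2 ⟨hZ.2.2, fun h' => hZ.1 h'.symm⟩)
                have h7 : (C.card : ℤ) + 1 ≤ Z.card := by exact_mod_cast h6
                rw [hn]
                push_cast
                linarith
              rw [sum_const, card_erase_of_mem hCin, hq, Nat.add_sub_cancel, nsmul_eq_mul] at h5
              linarith
            unfold S
            linarith
          have hnum := num Y.card q κ r u hYpos hr hsmall
          have hnZ : (Fintype.card V : ℤ) = C.card + u + r := by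
            rw [hn]
            push_cast
            ring
          rw [hnZ] at hS
          have e3 : 2 * (S F C - C.card) ≥ 2 * (((2 : ℤ) ^ u - κ - 1) * r - u -
              q * (u + r - Y.card - 2)) := by nlinarith
          nlinarith
        · have h5 : (u : ℤ) ≤ Y.card + q + κ := by
            have : u ≤ Y.card + q + κ := by omega
            exact_mod_cast this
          have hq0 : (0 : ℤ) ≤ q := by positivity
          nlinarith
      have hsum : ((Up F Y).card : ℤ) * max 0 ((u : ℤ) - b) ≤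
          ∑ C ∈ Up F Y, (2 * (S F C - C.card) + Y.card - Y.card * ((Ab F C).card - 1)) := by
        have h1 := Finset.sum_le_sum hterm
        rwa [sum_const, nsmul_eq_mul] at h1
      have ht2' : (2 : ℤ) ≤ (Up F Y).card := by exact_mod_cast ht2
      have h6 : (u : ℤ) - b ≤ max 0 ((u : ℤ) - b) := le_max_right _ _
      have h7 : (0 : ℤ) ≤ max 0 ((u : ℤ) - b) := le_max_left _ _
      nlinarith

/-- The sum over the nonempty members is positive. -/
theorem Nest.sum_pos (h : Nest F) [Nonempty V] (huniv : (univ : Finset V) ∈ F)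
    (h0 : ∅ ∉ ChainTwo.full F)
    (ht : ∀ Y ∈ out F, (∀ W ∈ ChainTwo.full F, Y ⊆ W → ∃ C ∈ Up F Y, C ⊆ W) →
      2 ≤ (Up F Y).card) :
    0 < ∑ A ∈ F.erase ∅, (2 * (A.card : ℤ) - Fintype.card V) := by
  classical
  have hHF : ChainTwo.full F ⊆ F.erase ∅ := fun A hA =>
    mem_erase.2 ⟨fun h' => h0 (h' ▸ hA), mem_full.1 hA A Subset.rfl⟩
  have hF : ∑ A ∈ F.erase ∅, (2 * (A.card : ℤ) - Fintype.card V) =
      ∑ A ∈ out F, (2 * (A.card : ℤ) - Fintype.card V) +
      ∑ A ∈ ChainTwo.full F, (2 * (A.card : ℤ) - Fintype.card V) :=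
    (Finset.sum_sdiff hHF).symm
  rw [hF, sum_upset full_up]
  have h1 := h.bd_above ∅
  have h2 := h.sum_above ∅ (fun Z => (Fintype.card V : ℤ) - 2 * Z.card)
  have h3 : (out F).filter (fun Z => ∅ ⊂ Z) = out F := by
    refine Finset.filter_true_of_mem fun Z hZ => ?_
    exact Finset.empty_ssubset.2 (mem_out.1 hZ).2.1
  rw [h3] at h2
  have h4 : ∑ A ∈ out F, (2 * (A.card : ℤ) - Fintype.card V) =
      - ∑ Z ∈ out F, ((Fintype.card V : ℤ) - 2 * Z.card) := by
    rw [← sum_neg_distrib]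
    exact Finset.sum_congr rfl fun A _ => by ring
  have h5 : ∑ C ∈ Up F ∅, S F C = ∑ C ∈ Up F ∅, ((bd (ChainTwo.full F) C).card : ℤ) -
      ∑ C ∈ Up F ∅, ∑ Z ∈ Ab F C, ((Fintype.card V : ℤ) - 2 * Z.card) := by
    rw [← sum_sub_distrib]
    rfl
  rcases (Up F ∅).eq_empty_or_nonempty with hemp | hne
  · have hout : out F = ∅ := by
      rw [Finset.eq_empty_iff_forall_notMem]
      intro Z hZ
      obtain ⟨Y, hY, _⟩ := exists_Up hZ (Finset.empty_ssubset.2 (mem_out.1 hZ).2.1)
      rw [hemp] at hY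
      exact notMem_empty _ hY
    rw [hout, sum_empty, zero_add]
    have hu : (univ : Finset V) ∈ ChainTwo.full F :=
      mem_full.2 fun C hC => by rw [univ_subset_iff.1 hC]; exact huniv
    have h6 := bd_ge full_up hu h0
    have h7 : 0 < Fintype.card V := Fintype.card_pos
    rw [card_empty] at h6
    omega
  · have h6 : 0 < ∑ C ∈ Up F ∅, S F C := by
      refine Finset.sum_pos (fun C hC => ?_) hne
      have hC' := mem_Up.1 hC
      have h7 := h.main ht _ C hC'.1 rfl
      have h8 : 0 < C.card := (mem_out.1 hC'.1).2.1.card_pos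
      have h9 : 0 < (Ab F C).card := Finset.card_pos.2 ⟨C, mem_Ab.2 ⟨hC'.1, Subset.rfl⟩⟩
      have h8' : (1 : ℤ) ≤ C.card := by exact_mod_cast h8
      have h9' : (1 : ℤ) ≤ (Ab F C).card := by exact_mod_cast h9
      nlinarith
    have h7 : (0 : ℤ) ≤ (bdo F ∅).card := by positivity
    linarith

/-- **Main theorem.** Some element lies in more than half of the nonempty members. -/
theorem Nest.abundant (h : Nest F) [Nonempty V] (huniv : (univ : Finset V) ∈ F) :
    ∃ x : V, (F.erase ∅).card < 2 * (F.filter (fun X => x ∈ X)).card := by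
  classical
  by_cases h0 : ∅ ∈ ChainTwo.full F
  · have hall : ∀ C : Finset V, C ∈ F := fun C => mem_full.1 h0 C (empty_subset _)
    have hG : Good F := ⟨huniv, fun A _ B _ => hall _, fun X _ Y _ Z _ _ _ _ C _ => hall C⟩
    exact hG.abundant inferInstance
  have hu : (univ : Finset V) ∈ ChainTwo.full F :=
    mem_full.2 fun C hC => by rw [univ_subset_iff.1 hC]; exact huniv
  by_cases ht : ∀ Y ∈ out F, (∀ W ∈ ChainTwo.full F, Y ⊆ W → ∃ C ∈ Up F Y, C ⊆ W) →
      2 ≤ (Up F Y).card
  · have hT := h.sum_pos huniv h0 ht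
    rw [FewBelow.sum_freq] at hT
    obtain ⟨x, _, hx⟩ := Finset.exists_lt_of_sum_lt (s := (univ : Finset V))
      (f := fun _ => (0 : ℤ))
      (g := fun x => 2 * (((F.erase ∅).filter (fun A => x ∈ A)).card : ℤ) - (F.erase ∅).card)
      (by simpa using hT)
    refine ⟨x, ?_⟩
    have h4 : ((F.erase ∅).filter (fun X => x ∈ X)).card ≤ (F.filter (fun X => x ∈ X)).card :=
      Finset.card_le_card (Finset.filter_subset_filter _ (erase_subset _ _))
    omega
  · push Not at ht
    obtain ⟨Y, hY, hII, hcard⟩ := ht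
    obtain ⟨Z, hZ, _⟩ := hII univ hu (subset_univ _)
    have hone : ∀ Z' ∈ Up F Y, Z' = Z := by
      intro Z' hZ'
      have h3 : (Up F Y).card ≤ 1 := by omega
      exact Finset.card_le_one.1 h3 Z' hZ' Z hZ
    have hZ' := mem_Up.1 hZ
    have hYo := mem_out.1 hY
    -- a minimal nonempty member below `Y`
    obtain ⟨A, hA, hmin⟩ := (F.filter (fun A => A.Nonempty ∧ A ⊆ Y)).exists_min_image
      Finset.card ⟨Y, by simp [hYo.1, hYo.2.1]⟩
    rw [mem_filter] at hA
    have hAo : A ∈ out F := mem_out.2 ⟨hA.1, hA.2.1, fun hf => hYo.2.2 (full_up _ hf _ hA.2.2)⟩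
    have hD : (Z \ Y).Nonempty := sdiff_nonempty.2 hZ'.2.1.2
    refine of_two hA.2.1 hD ?_ (mem_out.1 hZ'.1).1 (hA.2.2.trans hZ'.2.1.1) sdiff_subset
    intro X hX hXne
    by_cases hXY : X ⊆ Y
    · left
      by_contra hAX
      have hXo : X ∈ out F := mem_out.2 ⟨hX, hXne, fun hf => hYo.2.2 (full_up _ hf _ hXY)⟩
      by_cases hXA : X ⊆ A
      · have h3 := hmin X (mem_filter.2 ⟨hX, hXne, hXY⟩)
        have h4 := Finset.eq_of_subset_of_card_le hXA h3
        exact hAX (h4 ▸ Subset.rfl)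
      · exact hYo.2.2 (full_up _ (h.full hXo hAo hXA hAX) _ (union_subset hXY hA.2.2))
    · right
      have hun : Z ⊆ Y ∪ X := by
        by_cases hYX : Y ⊆ X
        · have hssub : Y ⊂ X := Finset.ssubset_iff_subset_ne.2 ⟨hYX, fun he =>
            hXY (he ▸ Subset.rfl)⟩
          by_cases hf : X ∈ ChainTwo.full F
          · obtain ⟨C, hC, hCX⟩ := hII X hf hYX
            rw [hone C hC] at hCX
            exact hCX.trans subset_union_right
          · obtain ⟨C, hC, hCX⟩ := exists_Up (mem_out.2 ⟨hX, hXne, hf⟩) hssub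
            rw [hone C hC] at hCX
            exact hCX.trans subset_union_right
        · have hf : Y ∪ X ∈ ChainTwo.full F :=
            mem_full.2 (h Y hYo.1 X hX hYo.2.1 hXne hYX hXY)
          obtain ⟨C, hC, hCX⟩ := hII _ hf subset_union_left
          rwa [hone C hC] at hCX
      intro x hx
      rw [mem_sdiff] at hx
      rcases mem_union.1 (hun hx.1) with h3 | h3
      · exact absurd h3 hx.2
      · exact h3

end Pool.Agent.R102.Nested
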