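import Mathlib

set_option autoImplicit false

/-!
# Closure systems whose rooted sets have, for each root, a common element of the stems

Let `C` be the family of the subsets `F` of `V` (with a down-closed side condition `Q`) such that
`p.1 ⊆ F → p.2 ∈ F` for all `p ∈ R`. If there is a map `f` such that `f p.2 ∈ p.1` for all `p ∈ R`, then
the average size of the members of `C` is at most `|V| / 2`.
-/

namespace Pool.Agent.R102.Rooted

open Finset

variable {V : Type*} [Fintype V] [DecidableEq V]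

/-- `F` without `v, f v, ..., f^k v` -/
def S (f : V → V) (F : Finset V) (v : V) (k : ℕ) : Finset V :=
  F \ (range (k + 1)).image (fun i => f^[i] v)

omit [Fintype V] in
lemma mem_S {f : V → V} {F : Finset V} {v : V} {k : ℕ} {x : V} :
    x ∈ S f F v k ↔ x ∈ F ∧ ∀ i ≤ k, f^[i] v ≠ x := by
  simp only [S, mem_sdiff, mem_image, mem_range, not_exists, not_and, Nat.lt_succ_iff]

omit [Fintype V] in
lemma S_zero (f : V → V) (F : Finset V) (v : V) : S f F v 0 = F.erase v := by
  ext x
  rw [mem_S, mem_erase]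
  constructor
  · rintro ⟨h1, h2⟩
    exact ⟨fun h => h2 0 le_rfl (by simp [h]), h1⟩
  · rintro ⟨h1, h2⟩
    refine ⟨h2, fun i hi => ?_⟩
    obtain rfl : i = 0 := by omega
    simpa using fun h => h1 h.symm

omit [Fintype V] in
lemma insert_S {f : V → V} {F : Finset V} {v : V} {k : ℕ} (h : f^[k + 1] v ∈ S f F v k) :
    insert (f^[k + 1] v) (S f F v (k + 1)) = S f F v k := by
  ext x
  rw [mem_insert, mem_S, mem_S]
  constructor
  · rintro (h1 | ⟨h1, h2⟩)
    · rw [h1]; exact mem_S.1 h
    · exact ⟨h1, fun i hi => h2 i (by omega)⟩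
  · rintro ⟨h1, h2⟩
    by_cases hx : f^[k + 1] v = x
    · exact Or.inl hx.symm
    · refine Or.inr ⟨h1, fun i hi => ?_⟩
      rcases Nat.lt_or_ge i (k + 1) with h3 | h3
      · exact h2 i (by omega)
      · obtain rfl : i = k + 1 := by omega
        exact hx

/-- data of the closure system -/
structure Sys (R : Finset (Finset V × V)) (f : V → V) (Q : Finset V → Prop)
    (C : Finset (Finset V)) : Prop where
  mem : ∀ F, F ∈ C ↔ Q F ∧ ∀ p ∈ R, p.1 ⊆ F → p.2 ∈ F
  down : ∀ F G : Finset V, F ⊆ G → Q G → Q F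
  stem : ∀ p ∈ R, f p.2 ∈ p.1

variable {R : Finset (Finset V × V)} {f : V → V} {Q : Finset V → Prop} {C : Finset (Finset V)}

omit [Fintype V] in
lemma root_eq (h : Sys R f Q C) {F : Finset V} (hF : F ∈ C) {v : V} {k : ℕ}
    {p : Finset V × V} (hp : p ∈ R) (h1 : p.1 ⊆ S f F v k) (h2 : p.2 ∉ S f F v k) :
    p.2 = f^[k] v := by
  have hF' := (h.mem F).1 hF
  have h3 : p.2 ∈ F := hF'.2 p hp fun x hx => (mem_S.1 (h1 hx)).1
  have h4 : ∃ i ≤ k, f^[i] v = p.2 := by
    by_contra hcon
    push Not at hcon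
    exact h2 (mem_S.2 ⟨h3, hcon⟩)
  obtain ⟨i, hi, h5⟩ := h4
  rcases Nat.lt_or_ge i k with h6 | h6
  · exfalso
    have h7 := (mem_S.1 (h1 (h.stem p hp))).2 (i + 1) (by omega)
    apply h7
    rw [Function.iterate_succ_apply', h5]
  · obtain rfl : i = k := by omega
    exact h5.symm

omit [Fintype V] in
lemma exists_root (h : Sys R f Q C) {F : Finset V} (hF : F ∈ C) {v : V} {k : ℕ}
    (hS : S f F v k ∉ C) : ∃ p ∈ R, p.1 ⊆ S f F v k ∧ p.2 ∉ S f F v k ∧ p.2 = f^[k] v := by
  have hF' := (h.mem F).1 hF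
  rw [h.mem] at hS
  push Not at hS
  obtain ⟨p, hp, h1, h2⟩ := hS (h.down _ F sdiff_subset hF'.1)
  exact ⟨p, hp, h1, h2, root_eq h hF hp h1 h2⟩

omit [Fintype V] in
lemma next_mem (h : Sys R f Q C) {F : Finset V} (hF : F ∈ C) {v : V} {k : ℕ}
    (hS : S f F v k ∉ C) : f^[k + 1] v ∈ S f F v k := by
  obtain ⟨p, hp, h1, _, h3⟩ := exists_root h hF hS
  rw [Function.iterate_succ_apply', ← h3]
  exact h1 (h.stem p hp)

omit [Fintype V] in
lemma exists_stop (h : Sys R f Q C) {F : Finset V} (hF : F ∈ C) (v : V) :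
    ∃ k, S f F v k ∈ C := by
  by_contra hcon
  push Not at hcon
  have h1 : ∀ k, (S f F v k).card + k ≤ F.card := by
    intro k
    induction k with
    | zero => exact card_le_card (sdiff_subset : S f F v 0 ⊆ F)
    | succ k ih =>
      have h2 := insert_S (next_mem h hF (hcon k))
      have h3 : f^[k + 1] v ∉ S f F v (k + 1) := fun h' => (mem_S.1 h').2 (k + 1) le_rfl rfl
      have h4 := card_insert_of_notMem h3
      rw [h2] at h4
      omega
  have := h1 (F.card + 1)
  omega

omit [Fintype V] in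
/-- the pair can be recovered -/
lemma recover (h : Sys R f Q C) : ∀ (k l : ℕ) (F G : Finset V) (v w : V), F ∈ C → G ∈ C →
    v ∈ F → w ∈ G → (∀ i < k, S f F v i ∉ C) → (∀ i < l, S f G w i ∉ C) →
    S f F v k = S f G w l → f^[k] v = f^[l] w → F = G ∧ v = w := by
  intro k
  induction k with
  | zero =>
    intro l F G v w hF hG hv hw _ hl hS hx
    rcases l with _ | l
    · simp only [Function.iterate_zero, id] at hx
      rw [S_zero, S_zero] at hS
      refine ⟨?_, hx⟩
      rw [← insert_erase hv, hS, hx, insert_erase hw]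
    · exfalso
      have h1 := insert_S (next_mem h hG (hl l (by omega)))
      rw [← hS, ← hx, S_zero, Function.iterate_zero, id, insert_erase hv] at h1
      exact hl l (by omega) (h1 ▸ hF)
  | succ k ih =>
    intro l F G v w hF hG hv hw hk hl hS hx
    have h1 := insert_S (next_mem h hF (hk k (by omega)))
    rcases l with _ | l
    · exfalso
      rw [hS, hx, S_zero, Function.iterate_zero, id, insert_erase hw] at h1
      exact hk k (by omega) (h1 ▸ hG)
    · have h2 := insert_S (next_mem h hG (hl l (by omega)))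
      rw [hS, hx, h2] at h1
      obtain ⟨p, hp, h3, h4, h5⟩ := exists_root h hF (hk k (by omega))
      have h6 := root_eq h hG (v := w) (k := l) hp (h1 ▸ h3) (h1 ▸ h4)
      exact ih l F G v w hF hG hv hw (fun i hi => hk i (by omega)) (fun i hi => hl i (by omega))
        h1.symm (h5.symm.trans h6)

/-- the pairs `(F, v)` with `v ∈ F ∈ C`, `F \ {v} ∉ C` -/
def J (C : Finset (Finset V)) : Finset (Finset V × V) :=
  univ.filter (fun p => p.1 ∈ C ∧ p.2 ∈ p.1 ∧ p.1.erase p.2 ∉ C)

/-- the pairs `(G, x)` with `x ∉ G ∈ C`, `G ∪ {x} ∉ C` -/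
def B (C : Finset (Finset V)) : Finset (Finset V × V) :=
  univ.filter (fun p => p.1 ∈ C ∧ p.2 ∉ p.1 ∧ insert p.2 p.1 ∉ C)

lemma J_le_B (h : Sys R f Q C) : (J C).card ≤ (B C).card := by
  classical
  let K : Finset V × V → ℕ := fun p => if hp : p.1 ∈ C then Nat.find (exists_stop h hp p.2) else 0
  have hK : ∀ p (hp : p.1 ∈ C), K p = Nat.find (exists_stop h hp p.2) := fun p hp => by
    simp only [K, hp, dif_pos]
  have hK1 : ∀ p, p.1 ∈ C → S f p.1 p.2 (K p) ∈ C := fun p hp => by
    rw [hK p hp]; exact Nat.find_spec (exists_stop h hp p.2)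
  have hK2 : ∀ p, p.1 ∈ C → ∀ i < K p, S f p.1 p.2 i ∉ C := fun p hp i hi => by
    rw [hK p hp] at hi; exact Nat.find_min (exists_stop h hp p.2) hi
  apply Finset.card_le_card_of_injOn (fun p => (S f p.1 p.2 (K p), f^[K p] p.2))
  · intro p hp
    simp only [J, coe_filter, mem_univ, true_and] at hp
    obtain ⟨h1, h2, h3⟩ := hp
    rw [mem_coe]
    simp only [B, mem_filter, mem_univ, true_and]
    refine ⟨hK1 p h1, fun h' => (mem_S.1 h').2 _ le_rfl rfl, ?_⟩
    have hpos : K p ≠ 0 := by
      intro h0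
      have := hK1 p h1
      rw [h0, S_zero] at this
      exact h3 this
    obtain ⟨k, hk⟩ := Nat.exists_eq_succ_of_ne_zero hpos
    have h4 := hK2 p h1 k (by omega)
    rw [hk, Nat.succ_eq_add_one, insert_S (next_mem h h1 h4)]
    exact h4
  · intro p hp q hq hpq
    simp only [J, coe_filter, mem_univ, true_and] at hp hq
    simp only [Prod.mk.injEq] at hpq
    obtain ⟨h1, h2⟩ := recover h (K p) (K q) p.1 q.1 p.2 q.2 hp.1 hq.1 hp.2.1 hq.2.1
      (hK2 p hp.1) (hK2 q hq.1) hpq.1 hpq.2
    exact Prod.ext h1 h2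

lemma pairs_eq (C : Finset (Finset V)) (P : Finset V × V → Prop) [DecidablePred P] :
    univ.filter (fun p : Finset V × V => p.1 ∈ C ∧ P p) = (C ×ˢ univ).filter P := by
  ext p
  simp

lemma card_pairs_in (C : Finset (Finset V)) :
    ((univ.filter (fun p : Finset V × V => p.1 ∈ C ∧ p.2 ∈ p.1)).card : ℤ) =
      ∑ F ∈ C, (F.card : ℤ) := by
  rw [pairs_eq, Finset.card_filter, Finset.sum_product]
  push_cast
  refine Finset.sum_congr rfl fun A _ => ?_
  simp

lemma card_pairs_out (C : Finset (Finset V)) :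
    ((univ.filter (fun p : Finset V × V => p.1 ∈ C ∧ p.2 ∉ p.1)).card : ℤ) =
      ∑ F ∈ C, ((Fintype.card V : ℤ) - F.card) := by
  rw [pairs_eq, Finset.card_filter, Finset.sum_product]
  push_cast
  refine Finset.sum_congr rfl fun A _ => ?_
  have : (∑ x : V, if x ∉ A then (1 : ℤ) else 0) = ((univ.filter (fun x => x ∉ A)).card : ℤ) := by
    rw [Finset.card_filter]; push_cast; rfl
  rw [this]
  have h2 : univ.filter (fun x => x ∉ A) = Aᶜ := by ext x; simp
  rw [h2, Finset.card_compl]
  rw [Nat.cast_sub (Finset.card_le_univ A)]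

/-- the defect of the average size -/
lemma defect (C : Finset (Finset V)) :
    ∑ F ∈ C, (2 * (F.card : ℤ) - Fintype.card V) = (J C).card - (B C).card := by
  set P1 := univ.filter (fun p : Finset V × V => p.1 ∈ C ∧ p.2 ∈ p.1) with hP1
  set P0 := univ.filter (fun p : Finset V × V => p.1 ∈ C ∧ p.2 ∉ p.1) with hP0
  have e1 : P1.card = (P1.filter (fun p => p.1.erase p.2 ∈ C)).card + (J C).card := by
    have hJ : J C = P1.filter (fun p => ¬ p.1.erase p.2 ∈ C) := by
      ext p
      simp only [J, hP1, mem_filter, mem_univ, true_and, and_assoc]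
    rw [hJ]
    exact (Finset.card_filter_add_card_filter_not _).symm
  have e0 : P0.card = (P0.filter (fun p => insert p.2 p.1 ∈ C)).card + (B C).card := by
    have hB : B C = P0.filter (fun p => ¬ insert p.2 p.1 ∈ C) := by
      ext p
      simp only [B, hP0, mem_filter, mem_univ, true_and, and_assoc]
    rw [hB]
    exact (Finset.card_filter_add_card_filter_not _).symm
  have e2 : (P1.filter (fun p => p.1.erase p.2 ∈ C)).card =
      (P0.filter (fun p => insert p.2 p.1 ∈ C)).card := by
    refine Finset.card_nbij' (fun p => (p.1.erase p.2, p.2)) (fun p => (insert p.2 p.1, p.2))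
      ?_ ?_ ?_ ?_
    · intro p hp
      rw [mem_coe] at hp ⊢
      simp only [hP1, hP0, mem_filter, mem_univ, true_and] at hp ⊢
      exact ⟨⟨hp.2, notMem_erase _ _⟩, by rw [insert_erase hp.1.2]; exact hp.1.1⟩
    · intro p hp
      rw [mem_coe] at hp ⊢
      simp only [hP1, hP0, mem_filter, mem_univ, true_and] at hp ⊢
      exact ⟨⟨hp.2, mem_insert_self _ _⟩, by rw [erase_insert hp.1.2]; exact hp.1.1⟩
    · intro p hp
      rw [mem_coe] at hp
      simp only [hP1, mem_filter, mem_univ, true_and] at hp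
      simp [insert_erase hp.1.2]
    · intro p hp
      rw [mem_coe] at hp
      simp only [hP0, mem_filter, mem_univ, true_and] at hp
      simp [erase_insert hp.1.2]
  have h1 := card_pairs_in C
  have h0 := card_pairs_out C
  have h2 : ∑ F ∈ C, (2 * (F.card : ℤ) - Fintype.card V) =
      ∑ F ∈ C, (F.card : ℤ) - ∑ F ∈ C, ((Fintype.card V : ℤ) - F.card) := by
    rw [← Finset.sum_sub_distrib]
    exact Finset.sum_congr rfl fun A _ => by ring
  rw [h2, ← h1, ← h0, e1, e0, e2]
  push_cast
  ring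

/-- **Average rarity.** -/
theorem average (h : Sys R f Q C) : 2 * ∑ F ∈ C, F.card ≤ C.card * Fintype.card V := by
  have h1 := defect C
  have h2 := J_le_B h
  have h3 : ∑ F ∈ C, (2 * (F.card : ℤ) - Fintype.card V) ≤ 0 := by
    rw [h1]
    have : ((J C).card : ℤ) ≤ (B C).card := by exact_mod_cast h2
    linarith
  rw [Finset.sum_sub_distrib, ← Finset.mul_sum, Finset.sum_const, nsmul_eq_mul] at h3
  have h4 : ((2 * ∑ F ∈ C, F.card : ℕ) : ℤ) ≤ ((C.card * Fintype.card V : ℕ) : ℤ) := by
    push_cast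
    linarith
  exact_mod_cast h4

end Pool.Agent.R102.Rooted
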